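import Pool.Agent.H.MP_bf94fe_gt.Circle

set_option autoImplicit false

namespace Pool.Agent.H.MP_bf94fe_gt

open Filter Topology Set

def EE (X Y : Set ℝ) : Prop :=
  ∃ n : ℕ, ∃ P : Fin n → Set ℝ, ∃ g : Fin n → (ℝ ≃ᵢ ℝ),
    (∀ i, interior (closure (P i)) = P i ∧ Bornology.IsBounded (P i)) ∧
    Pairwise (fun i j => Disjoint (P i) (P j)) ∧
    Pairwise (fun i j => Disjoint ((g i) '' (P i)) ((g j) '' (P j))) ∧
    interior (closure (⋃ i, P i)) = X ∧
    interior (closure (⋃ i, (g i) '' (P i))) = Y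

lemma disj_reg {U V : Set ℝ} (hU : IsOpen U) (h : Disjoint U V) :
    Disjoint (interior (closure U)) (interior (closure V)) :=
  (((h.closure_right hU).mono_right interior_subset).closure_left isOpen_interior).mono_left
    interior_subset

lemma clos_reg {J : Type} {Q : J → Set ℝ} (hQ : ∀ j, IsOpen (Q j)) :
    closure (⋃ j, interior (closure (Q j))) = closure (⋃ j, Q j) :=
  Subset.antisymm (closure_minimal (iUnion_subset fun j => interior_subset.trans
    (closure_mono (subset_iUnion Q j))) isClosed_closure)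
    (closure_mono (iUnion_mono fun j => (hQ j).subset_interior_closure))

lemma EE.of_open {J : Type} [Fintype J] {A B : Set ℝ} (hA : interior (closure A) = A)
    (hB : interior (closure B) = B) (Q : J → Set ℝ) (f : J → ℝ ≃ᵢ ℝ) (h1 : ∀ j, IsOpen (Q j))
    (h2 : ∀ j, Bornology.IsBounded (Q j)) (h3 : Pairwise fun i j => Disjoint (Q i) (Q j))
    (h4 : Pairwise fun i j => Disjoint (f i '' Q i) (f j '' Q j))
    (h5 : closure (⋃ j, Q j) = closure A) (h6 : closure (⋃ j, f j '' Q j) = closure B) :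
    EE A B := by
  set e := (Fintype.equivFin J).symm
  have im : ∀ j, f j '' interior (closure (Q j)) = interior (closure (f j '' Q j)) := fun j => by
    have a := (f j).toHomeomorph.image_interior (closure (Q j))
    rw [(f j).toHomeomorph.image_closure] at a
    exact a
  have op : ∀ j, IsOpen (f j '' Q j) := fun j => (f j).toHomeomorph.isOpenMap _ (h1 j)
  refine ⟨_, fun k => interior (closure (Q (e k))), fun k => f (e k),
    fun k => ⟨interior_closure_idem, (h2 _).closure.subset interior_subset⟩,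
    fun k l h => disj_reg (h1 _) (h3 (e.injective.ne h)), fun k l h => ?_, ?_, ?_⟩
  · dsimp only
    rw [im, im]
    exact disj_reg (op _) (h4 (e.injective.ne h))
  · rw [e.surjective.iUnion_comp fun j => interior (closure (Q j)), clos_reg h1, h5, hA]
  · rw [e.surjective.iUnion_comp fun j => f j '' interior (closure (Q j))]
    simp only [im]
    rw [clos_reg op, h6, hB]

lemma iso_form (g : ℝ ≃ᵢ ℝ) : ∃ e : ℤˣ, ∀ x, g x = e • x + g 0 := by
  have h : ∀ x y, (g x - g y) ^ 2 = (x - y) ^ 2 := fun x y => by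
    rw [← sq_abs, ← Real.dist_eq, g.dist_eq, Real.dist_eq, sq_abs]
  have h1 := h 1 0
  have : g 1 - g 0 = 1 ∨ g 1 - g 0 = -1 := sq_eq_one_iff.1 (by simpa using h1)
  rcases this with e | e
  · refine ⟨1, fun x => ?_⟩
    have a := h x 0
    have b := h x 1
    rw [show g 1 = g 0 + 1 by linarith] at b
    simp only [one_smul]
    nlinarith
  · refine ⟨-1, fun x => ?_⟩
    have a := h x 0
    have b := h x 1
    rw [show g 1 = g 0 - 1 by linarith] at b
    simp only [Units.neg_smul, one_smul]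
    nlinarith

lemma iso_exists (e : ℤˣ) (c : ℝ) : ∃ f : ℝ ≃ᵢ ℝ, ∀ x, f x = e • x + c := by
  rcases Int.units_eq_one_or e with rfl | rfl
  · exact ⟨IsometryEquiv.addRight c, fun x => by simp⟩
  · exact ⟨(IsometryEquiv.neg ℝ).trans (IsometryEquiv.addRight c), fun x => by simp⟩

lemma ind_iUnion {T J : Type} [Fintype J] {Q : J → Set T}
    (h : Pairwise fun i j => Disjoint (Q i) (Q j)) (y : T) :
    ∑ j, ind (y ∈ Q j) = ind (y ∈ ⋃ j, Q j) := by
  by_cases hy : y ∈ ⋃ j, Q j
  · obtain ⟨j, hj⟩ := mem_iUnion.1 hy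
    rw [ind_pos hy, Finset.sum_eq_single j (fun i _ hi => ind_neg fun a =>
      disjoint_left.1 (h hi) a hj) (by simp), ind_pos hj]
  · rw [ind_neg hy]
    exact Finset.sum_eq_zero fun j _ => ind_neg fun a => hy (mem_iUnion.2 ⟨j, a⟩)

lemma ind_union {T : Type} {U V : Set T} (h : Disjoint U V) (y : T) :
    ind (y ∈ U ∪ V) = ind (y ∈ U) + ind (y ∈ V) := by
  have : y ∈ U → y ∉ V := fun a => disjoint_left.1 h a
  by_cases a : y ∈ U <;> by_cases b : y ∈ V <;> simp_all [ind]

variable {N : ℕ} [hN : Fact ((0 : ℝ) < N)]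

variable (N) in
abbrev pj : ℝ → AddCircle (N : ℝ) := fun x => (x : AddCircle (N : ℝ))

omit hN in
lemma pj_cont : Continuous (pj N) := AddCircle.continuous_mk' _

omit hN in
lemma pj_open : IsOpenMap (pj N) := QuotientAddGroup.isOpenMap_coe

omit hN in
lemma pj_aff (e : ℤˣ) (c x : ℝ) :
    (⟨e, pj N c⟩ : Aff (AddCircle (N : ℝ))) • pj N x = pj N (e • x + c) := by
  rw [Aff.smul_def]
  rcases Int.units_eq_one_or e with rfl | rfl <;> simp

omit hN in
lemma pj_eq {x y : ℝ} : pj N x = pj N y ↔ ∃ k : ℤ, y = x + k * N := by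
  rw [eq_comm, ← sub_eq_zero, ← AddCircle.coe_sub, AddCircle.coe_eq_zero_iff]
  simp only [zsmul_eq_mul]
  exact exists_congr fun k => ⟨fun h => by linarith, fun h => by linarith⟩

lemma pj_inj : InjOn (pj N) (Metric.ball 0 (N / 2)) := by
  intro x hx y hy h
  obtain ⟨k, hk⟩ := pj_eq.1 h
  rw [mem_ball_zero_iff, Real.norm_eq_abs, abs_lt] at hx hy
  have h0 := hN.out
  have a : (k : ℝ) < 1 := by nlinarith
  have b : (-1 : ℝ) < k := by nlinarith
  have a' : k < 1 := by exact_mod_cast a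
  have b' : -1 < k := by exact_mod_cast b
  have : k = 0 := by omega
  simp [hk, this]

omit hN in
lemma pj_mem {a : Aff (AddCircle (N : ℝ))} {f : ℝ → ℝ} (h : ∀ x, a • pj N x = pj N (f x))
    (S : Set ℝ) (y : AddCircle (N : ℝ)) : a⁻¹ • y ∈ pj N '' S ↔ y ∈ pj N '' (f '' S) := by
  constructor
  · rintro ⟨x, hx, e⟩
    exact ⟨f x, mem_image_of_mem f hx, by rw [← h, e, smul_inv_smul]⟩
  · rintro ⟨_, ⟨x, hx, rfl⟩, rfl⟩
    exact ⟨x, hx, by rw [← h, inv_smul_smul]⟩

lemma pj_res {U V : Set ℝ} (hU : IsOpen U) (hV : IsOpen V) (bU : Bornology.IsBounded U)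
    (h : interior (closure U) = interior (closure V)) :
    ∀ᶠ y in residual (AddCircle (N : ℝ)), (y ∈ pj N '' U) = (y ∈ pj N '' V) := by
  have e : closure U = closure V := Subset.antisymm
    (closure_minimal (hU.subset_interior_closure.trans (h ▸ interior_subset)) isClosed_closure)
    (closure_minimal (hV.subset_interior_closure.trans (h ▸ interior_subset)) isClosed_closure)
  have c1 := image_closure_of_isCompact bU.isCompact_closure (pj_cont (N := N)).continuousOn
  have c2 := image_closure_of_isCompact (s := V) (e ▸ bU.isCompact_closure)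
    (pj_cont (N := N)).continuousOn
  rw [e, c2] at c1
  filter_upwards [res_open (pj_open (N := N) U hU), res_open (pj_open (N := N) V hV)] with y a b
  refine propext ⟨fun h => b.resolve_right fun h' => h' (c1 ▸ subset_closure h),
    fun h => a.resolve_right fun h' => h' (c1 ▸ subset_closure h)⟩

lemma back {A B : Set ℝ} (hA : interior (closure A) = A) (hB : interior (closure B) = B)
    (sA : A ⊆ Metric.ball 0 (N / 2)) (sB : B ⊆ Metric.ball 0 (N / 2))
    (h : Eqd (Aff (AddCircle (N : ℝ))) (fun y => ind (y ∈ pj N '' A))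
      (fun y => ind (y ∈ pj N '' B))) : EE A B := by
  classical
  obtain ⟨m, γ, π, r1, r2, r3⟩ := h
  have oA : IsOpen A := hA ▸ isOpen_interior
  have oB : IsOpen B := hB ▸ isOpen_interior
  choose t ht using fun i => QuotientAddGroup.mk_surjective (γ i).t
  choose f hf using iso_exists
  obtain ⟨K, hK⟩ := exists_nat_gt ((∑ i, |t i| + N) / N)
  set O : Fin m → Set (AddCircle (N : ℝ)) := fun i => {y | ∀ᶠ z in 𝓝 y, π i z = 1} with hO
  have oO : ∀ i, IsOpen (O i) := fun i => isOpen_setOf_eventually_nhds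
  set F : Fin m × Finset.Icc (-(K : ℤ)) K → ℝ ≃ᵢ ℝ := fun j => f (γ j.1).e (t j.1 + j.2.1 * N)
    with hF
  have hγ : ∀ i (k : ℤ) x, γ i • pj N x = pj N (f (γ i).e (t i + k * N) x) := by
    intro i k x
    have : γ i = ⟨(γ i).e, pj N (t i)⟩ := Aff.ext rfl (ht i).symm
    rw [hf]
    conv_lhs => rw [this, pj_aff]
    exact pj_eq.2 ⟨k, by ring⟩
  have one : ∀ (ρ : Fin m → AddCircle (N : ℝ) → ℕ) (p : AddCircle (N : ℝ) → Prop),
      (∀ᶠ y in residual _, ∑ i, ρ i y = ind (p y)) → ∀ i j y, (∀ᶠ z in 𝓝 y, ρ i z = 1) →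
      (∀ᶠ z in 𝓝 y, ρ j z = 1) → i = j := by
    intro ρ p h i j y a b
    by_contra hne
    obtain ⟨z, z3, z1, z2⟩ := (dense_of_mem_residual h).inter_nhds_nonempty (a.and b)
    have z3' : ∑ i, ρ i z = ind (p z) := z3
    have := Finset.add_le_sum (s := Finset.univ) (f := fun i => ρ i z)
      (fun _ _ => Nat.zero_le _) (Finset.mem_univ i) (Finset.mem_univ j) hne
    have := ind_le (p z)
    omega
  have O2 : ∀ i y, y ∈ O i → ∀ᶠ z in 𝓝 (γ i • y), π i ((γ i)⁻¹ • z) = 1 := fun i y hy =>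
    (continuous_const_smul (γ i)⁻¹).continuousAt.eventually (p := fun z => π i z = 1)
      (by simpa [hO] using hy)
  have lift : ∀ i, ∀ x ∈ A, ∀ y ∈ B, γ i • pj N x = pj N y →
      ∃ k : Finset.Icc (-(K : ℤ)) K, F (i, k) x = y := by
    intro i x hx y hy e
    rw [hγ i 0] at e
    obtain ⟨k, hk⟩ := pj_eq.1 e
    rw [hf] at hk
    have h0 := hN.out
    have a1 := sA hx
    have a2 := sB hy
    rw [mem_ball_zero_iff, Real.norm_eq_abs, abs_lt] at a1 a2
    have a3 : |t i| ≤ ∑ i, |t i| :=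
      Finset.single_le_sum (f := fun i => |t i|) (fun _ _ => abs_nonneg _) (Finset.mem_univ i)
    have a4 := abs_le.1 (le_refl |t i|)
    rw [div_lt_iff₀ h0] at hK
    have a5 : -(N / 2 : ℝ) < (γ i).e • x ∧ (γ i).e • x < N / 2 := by
      rcases Int.units_eq_one_or (γ i).e with e | e <;> rw [e] <;> simp <;> constructor <;>
        linarith [a1.1, a1.2]
    push_cast at hk
    have b1 : (k : ℝ) < K := by nlinarith
    have b2 : -(K : ℝ) < k := by nlinarith
    refine ⟨⟨k, Finset.mem_Icc.2 ⟨by exact_mod_cast b2.le, by exact_mod_cast b1.le⟩⟩, ?_⟩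
    simp only [hF, hf]
    linarith
  have pick : ∀ (ρ : Fin m → ℕ) (p : Prop), ∑ i, ρ i = ind p → p → ∃ i, ρ i = 1 := by
    intro ρ p e hp
    rw [ind_pos hp] at e
    obtain ⟨i, -, hi⟩ := Finset.exists_ne_zero_of_sum_ne_zero (s := Finset.univ) (f := ρ) (by omega)
    have := Finset.single_le_sum (f := ρ) (fun _ _ => Nat.zero_le _) (Finset.mem_univ i)
    exact ⟨i, by omega⟩
  have pick' : ∀ (ρ : Fin m → ℕ) (p : Prop) (i), ∑ i, ρ i = ind p → ρ i = 1 → p := by
    intro ρ p i e hi
    by_contra hp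
    rw [ind_neg hp] at e
    have := Finset.single_le_sum (f := ρ) (fun _ _ => Nat.zero_le _) (Finset.mem_univ i)
    omega
  have kinj : ∀ i k l x, F (i, k) x ∈ B → F (i, l) x ∈ B → k = l := by
    intro i k l x a b
    have := pj_inj (sB a) (sB b) (by simp only [hF]; rw [← hγ, ← hγ])
    simp only [hF, hf, add_right_inj, mul_left_inj' hN.out.ne', Int.cast_inj] at this
    exact Subtype.ext this
  refine EE.of_open hA hB (fun j => A ∩ pj N ⁻¹' O j.1 ∩ F j ⁻¹' B) F
    (fun j => (oA.inter ((oO _).preimage pj_cont)).inter (oB.preimage (F j).continuous))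
    (fun j => Metric.isBounded_ball.subset fun x hx => sA hx.1.1) ?_ ?_ ?_ ?_
  · rintro ⟨i, k⟩ ⟨j, l⟩ hne
    refine disjoint_left.2 fun x a b => hne ?_
    obtain rfl := one π _ r2 i j _ a.1.2 b.1.2
    rw [kinj i k l x a.2 b.2]
  · rintro ⟨i, k⟩ ⟨j, l⟩ hne
    refine disjoint_left.2 ?_
    rintro _ ⟨x, a, rfl⟩ ⟨x', b, e⟩
    have e' : γ j • pj N x' = γ i • pj N x := by
      rw [hγ j l, hγ i k]
      exact congrArg _ e
    obtain rfl := one (fun i z => π i ((γ i)⁻¹ • z)) _ r3 i j _ (O2 i _ a.1.2) (e' ▸ O2 j _ b.1.2)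
    obtain rfl := pj_inj (sA b.1.1) (sA a.1.1) (smul_left_cancel _ e')
    exact hne (by rw [kinj i k l _ a.2 b.2])
  · refine Subset.antisymm (closure_mono (iUnion_subset fun j x hx => hx.1.1))
      (closure_minimal (fun x hx => mem_closure_iff.2 fun U hU hxU => ?_) isClosed_closure)
    obtain ⟨_, ⟨x', hx', rfl⟩, ⟨a, b⟩, c⟩ := (dense_of_mem_residual ((r2.and
      (eventually_all.2 r1)).and (eventually_all.2 fun i => res_smul (γ i) r3))).inter_open_nonempty
      _ (pj_open (N := N) _ (hU.inter oA)) ⟨_, x, ⟨hxU, hx⟩, rfl⟩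
    obtain ⟨i, hi⟩ := pick _ _ a ⟨x', hx'.2, rfl⟩
    obtain ⟨y, hy, e⟩ := pick' _ _ i (c i) (by rwa [inv_smul_smul])
    obtain ⟨k, hk⟩ := lift i x' hx'.2 y hy e.symm
    exact ⟨x', hx'.1, mem_iUnion.2 ⟨(i, k), ⟨hx'.2, (b i).mono fun z hz => hz.trans hi⟩, by rwa [mem_preimage, hk]⟩⟩
  · refine Subset.antisymm (closure_mono (iUnion_subset ?_))
      (closure_minimal (fun x hx => mem_closure_iff.2 fun U hU hxU => ?_) isClosed_closure)
    · rintro j _ ⟨x, hx, rfl⟩
      exact hx.2
    obtain ⟨_, ⟨y, hy, rfl⟩, a, c⟩ := (dense_of_mem_residual (r3.and (eventually_all.2 fun i =>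
      res_smul (γ i)⁻¹ (r2.and (r1 i))))).inter_open_nonempty
      _ (pj_open (N := N) _ (hU.inter oB)) ⟨_, x, ⟨hxU, hx⟩, rfl⟩
    obtain ⟨i, hi⟩ := pick _ _ a ⟨y, hy.2, rfl⟩
    obtain ⟨x', hx', e⟩ := pick' _ _ i (c i).1 hi
    obtain ⟨k, hk⟩ := lift i x' hx' y hy.2 (by rw [e, smul_inv_smul])
    refine ⟨y, hy.1, mem_iUnion.2 ⟨(i, k), x', ⟨⟨hx', ?_⟩, by rw [mem_preimage, hk]; exact hy.2⟩,
      hk⟩⟩
    have := (c i).2
    rw [hi, ← e] at this
    exact this

theorem main {A B : Set ℝ} (hA : interior (closure A) = A) (bA : Bornology.IsBounded A)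
    (hB : interior (closure B) = B) (bB : Bornology.IsBounded B) (s t : ℝ)
    (dA : Disjoint A ((fun x => x + s) '' A)) (dB : Disjoint B ((fun x => x + t) '' B))
    (h : EE (interior (closure (A ∪ (fun x => x + s) '' A)))
      (interior (closure (B ∪ (fun x => x + t) '' B)))) : EE A B := by
  obtain ⟨n, P, g, p1, p2, p3, p4, p5⟩ := h
  have oA : IsOpen A := hA ▸ isOpen_interior
  have oB : IsOpen B := hB ▸ isOpen_interior
  have oP : ∀ i, IsOpen (P i) := fun i => (p1 i).1 ▸ isOpen_interior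
  have oG : ∀ i, IsOpen (g i '' P i) := fun i => (g i).toHomeomorph.isOpenMap _ (oP i)
  have oA' : IsOpen ((fun x => x + s) '' A) := isOpenMap_add_right s _ oA
  have oB' : IsOpen ((fun x => x + t) '' B) := isOpenMap_add_right t _ oB
  rcases A.eq_empty_or_nonempty with rfl | hne
  · have e1 : ∀ i, P i = ∅ := fun i => by
      have := (subset_iUnion P i).trans (isOpen_iUnion oP).subset_interior_closure
      rw [p4] at this
      simpa using this
    have e2 : B = ∅ := by
      have := subset_union_left.trans (oB.union oB').subset_interior_closure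
      rw [← p5] at this
      simpa [e1] using this
    exact ⟨0, Fin.elim0, Fin.elim0, fun i => i.elim0, fun i => i.elim0, fun i => i.elim0,
      by simp, by simp [e2]⟩
  have bP : Bornology.IsBounded (⋃ i, P i) := Bornology.isBounded_iUnion.2 fun i => (p1 i).2
  have bG : Bornology.IsBounded (⋃ i, g i '' P i) := Bornology.isBounded_iUnion.2 fun i =>
    (g i).isometry.lipschitz.isBounded_image (p1 i).2
  have bA' : Bornology.IsBounded ((fun x => x + s) '' A) :=
    (isometry_add_right s).lipschitz.isBounded_image bA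
  have bB' : Bornology.IsBounded ((fun x => x + t) '' B) :=
    (isometry_add_right t).lipschitz.isBounded_image bB
  obtain ⟨r, hr0, hr⟩ := (((bA.union bA').union (bB.union bB')).union (bP.union bG)).subset_ball_lt
    0 0
  obtain ⟨N, hN⟩ := exists_nat_gt (2 * r)
  haveI : Fact ((0 : ℝ) < N) := ⟨by linarith⟩
  have hs := hr.trans (Metric.ball_subset_ball (show r ≤ N / 2 by linarith))
  simp only [union_subset_iff, iUnion_subset_iff] at hs
  obtain ⟨⟨⟨s1, s2⟩, s3, s4⟩, s5, s6⟩ := hs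
  choose e he using fun i => iso_form (g i)
  refine back (N := N) hA hB s1 s3 (circle_half (ι := Fin n ⊕ Bool)
    (Sum.elim (fun i => ⟨e i, pj N (g i 0)⟩) fun b => cond b ⟨1, pj N s⟩ ⟨1, pj N t⟩)
    (ψ := fun y => Sum.elim (fun i => (ind (y ∈ pj N '' P i) : ℤ))
      fun b => cond b (ind (y ∈ pj N '' A)) (-ind (y ∈ pj N '' B)))
    (Lc.pi (f := fun (i : Fin n ⊕ Bool) y => Sum.elim (fun i => (ind (y ∈ pj N '' P i) : ℤ))
      (fun b => cond b (ind (y ∈ pj N '' A)) (-ind (y ∈ pj N '' B))) i) ?_) ?_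
    (pj_open _ oA) (pj_open _ oB) (hne.image _) ?_)
  · rintro (i | _ | _)
    · exact (Lc.of_isOpen (pj_open _ (oP i))).comp fun p => (ind p : ℤ)
    · exact (Lc.of_isOpen (pj_open _ oB)).comp fun p => -(ind p : ℤ)
    · exact (Lc.of_isOpen (pj_open _ oA)).comp fun p => (ind p : ℤ)
  · rintro y (i | _ | _) <;> simp [ind_le]
  · filter_upwards [pj_res (N := N) (isOpen_iUnion oP) (oA.union oA') bP p4,
      pj_res (N := N) (isOpen_iUnion oG) (oB.union oB') bG p5] with y a b
    have c1 := ind_iUnion (Q := fun i => pj N '' P i)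
      (fun i j h => (p2 h).image pj_inj (s5 i) (s5 j)) y
    have c2 := ind_iUnion (Q := fun i => pj N '' (g i '' P i))
      (fun i j h => (p3 h).image pj_inj (s6 i) (s6 j)) y
    rw [← image_iUnion, a, image_union, ind_union (dA.image pj_inj s1 s2)] at c1
    rw [← image_iUnion, b, image_union, ind_union (dB.image pj_inj s3 s4)] at c2
    have m1 := fun i => pj_mem (N := N) (a := ⟨e i, pj N (g i 0)⟩) (f := g i)
      (fun x => by rw [pj_aff, ← he]) (P i) y
    have m2 := pj_mem (N := N) (a := ⟨1, pj N s⟩) (f := fun x => x + s)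
      (fun x => by rw [pj_aff, one_smul]) A y
    have m3 := pj_mem (N := N) (a := ⟨1, pj N t⟩) (f := fun x => x + t)
      (fun x => by rw [pj_aff, one_smul]) B y
    simp only [dv, Fintype.sum_sum_type, Fintype.sum_bool, Sum.elim_inl, Sum.elim_inr, cond_true,
      cond_false, m1, m2, m3]
    zify at c1 c2
    linarith

end Pool.Agent.H.MP_bf94fe_gt
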