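import Pool.Agent.H.MP_bf94fe_gt.Cancel

set_option autoImplicit false

namespace Pool.Agent.H.MP_bf94fe_gt

open Filter Topology Finset

lemma indep_real {m n k : ℤ} (h : (m : ℝ) * √2 + n * √3 = k) : m = 0 ∧ n = 0 := by
  have h2 : √2 * √2 = (2 : ℝ) := Real.mul_self_sqrt (by norm_num)
  have h3 : √3 * √3 = (3 : ℝ) := Real.mul_self_sqrt (by norm_num)
  have h6 : √2 * √3 = √(6 : ℕ) := by
    rw [← Real.sqrt_mul (by norm_num)]
    norm_num
  have i6 : Irrational √(6 : ℕ) := irrational_sqrt_natCast_iff.2 (by decide +kernel)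
  have i2 : Irrational √2 := irrational_sqrt_two
  have i3 : Irrational √(3 : ℕ) := Nat.prime_three.irrational_sqrt
  have hmn : m * n = 0 := by
    by_contra hne
    refine (i6.intCast_mul (m := 2 * (m * n)) (by omega)).ne_int (k ^ 2 - 2 * m ^ 2 - 3 * n ^ 2) ?_
    push_cast
    rw [← h]
    linear_combination (-2 * m * n : ℝ) * h6 - (m : ℝ) ^ 2 * h2 - (n : ℝ) ^ 2 * h3
  rcases mul_eq_zero.1 hmn with rfl | rfl
  · refine ⟨rfl, ?_⟩
    by_contra hne
    exact (i3.intCast_mul hne).ne_int k (by simpa using h)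
  · refine ⟨?_, rfl⟩
    by_contra hne
    exact (i2.intCast_mul hne).ne_int k (by simpa using h)

lemma tr_zpow {T : Type} [AddCommGroup T] (t : T) (n : ℤ) :
    (⟨1, t⟩ : Aff T) ^ n = ⟨1, n • t⟩ := by
  let f : Multiplicative T →* Aff T :=
    { toFun := fun x => ⟨1, x.toAdd⟩
      map_one' := rfl
      map_mul' := fun a b => Aff.ext (by simp) (by simp) }
  exact (map_zpow f (Multiplicative.ofAdd t) n).symm

variable {N : ℕ} [hN : Fact ((0 : ℝ) < N)]

lemma indep {m n : ℤ} (h : m • ((√2 : ℝ) : AddCircle (N : ℝ)) + n • ((√3 : ℝ) : AddCircle (N : ℝ))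
    = 0) : m = 0 ∧ n = 0 := by
  rw [← AddCircle.coe_zsmul, ← AddCircle.coe_zsmul, ← AddCircle.coe_add,
    AddCircle.coe_eq_zero_iff] at h
  obtain ⟨k, hk⟩ := h
  refine indep_real (k := k * N) ?_
  simp only [zsmul_eq_mul] at hk
  push_cast
  exact hk.symm

lemma aff_free (g : Aff (AddCircle (N : ℝ))) (hg : g ≠ 1) :
    ∀ᶠ x in residual (AddCircle (N : ℝ)), g • x ≠ x := by
  haveI : Nontrivial (AddCircle (N : ℝ)) := ⟨⟨((√2 : ℝ) : AddCircle (N : ℝ)), 0, fun h =>
    one_ne_zero (indep (N := N) (m := 1) (n := 0) (by simpa using h)).1⟩⟩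
  rcases Int.units_eq_one_or g.e with e | e
  · refine Eventually.of_forall fun x hx => hg (Aff.ext e ?_)
    rw [Aff.smul_def, e] at hx
    simpa using hx
  · have hf : {x : AddCircle (N : ℝ) | g • x = x}.Finite := by
      rcases {x : AddCircle (N : ℝ) | g • x = x}.eq_empty_or_nonempty with h | ⟨y, hy⟩
      · rw [h]
        exact Set.finite_empty
      · refine ((AddCircle.finite_torsion (N : ℝ) two_pos).image (· + y)).subset fun x hx => ?_
        simp only [Set.mem_setOf_eq, Aff.smul_def, e, Units.neg_smul, one_smul] at hx hy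
        refine ⟨x - y, ?_, by simp⟩
        show 2 • (x - y) = 0
        have : 2 • (x - y) = (x - (-x + g.t)) - (y - (-y + g.t)) := by abel
        rw [this, hx, hy]
        simp
    refine residual_of_dense_open hf.isClosed.isOpen_compl ?_
    have := dense_univ.diff_finite hf
    rwa [← Set.compl_eq_univ_diff] at this

lemma coset_count {A : Set (AddCircle (N : ℝ))} (hA : IsOpen A) (hne : A.Nonempty) (k : ℕ) :
    ∃ C : AddSubgroup (AddCircle (N : ℝ)), ∃ hC : (C : Set (AddCircle (N : ℝ))).Finite,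
      ∀ y, k ≤ ∑ c ∈ hC.toFinset, ind (y + c ∈ A) := by
  classical
  obtain ⟨x, hx⟩ := hne
  obtain ⟨u, rfl⟩ := QuotientAddGroup.mk_surjective x
  obtain ⟨δ, hδ, hb⟩ := Metric.isOpen_iff.1 (hA.preimage (AddCircle.continuous_mk' (N : ℝ))) u hx
  have hN0 := hN.out
  obtain ⟨q, hq⟩ := exists_nat_gt (max (k : ℝ) ((k + 1) * N / δ))
  have hq1 : (k : ℝ) < q := (le_max_left _ _).trans_lt hq
  have hq0 : (0 : ℝ) < q := (Nat.cast_nonneg k).trans_lt hq1
  have hq2 : (k + 1) * (N / q : ℝ) < δ := by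
    have := (le_max_right _ _).trans_lt hq
    rw [div_lt_iff₀ hδ] at this
    rw [← mul_div_assoc, div_lt_iff₀ hq0]
    linarith
  set ρ : AddCircle (N : ℝ) := ((N / q : ℝ) : AddCircle (N : ℝ)) with hρ
  have ho : addOrderOf ρ = q := AddCircle.addOrderOf_period_div (by exact_mod_cast hq0)
  have hfin : IsOfFinAddOrder ρ := addOrderOf_pos_iff.1 (by rw [ho]; exact_mod_cast hq0)
  refine ⟨AddSubgroup.zmultiples ρ, hfin.finite_zmultiples, fun y => ?_⟩
  obtain ⟨v, rfl⟩ := QuotientAddGroup.mk_surjective y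
  have hs : 0 < (N / q : ℝ) := by positivity
  set j := ⌈(u - v) / (N / q : ℝ)⌉ with hj
  have j1 : u - v ≤ j * (N / q : ℝ) := (div_le_iff₀ hs).1 (Int.le_ceil _)
  have j2 : j * (N / q : ℝ) < u - v + N / q := by
    have := Int.ceil_lt_add_one ((u - v) / (N / q : ℝ))
    rw [← hj, div_add_one hs.ne', lt_div_iff₀ hs] at this
    exact this
  unfold ind
  rw [← Finset.card_filter]
  conv_lhs => rw [← Finset.card_range k]
  refine Finset.card_le_card_of_injOn (fun i => j • ρ + i • ρ) (fun i hi => ?_)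
    fun i hi i' hi' e => ?_
  · have hi' : (i : ℝ) < k := by exact_mod_cast mem_range.1 hi
    refine mem_coe.2 (mem_filter.2 ⟨(Set.Finite.mem_toFinset _).2 (AddSubgroup.add_mem _
      (AddSubgroup.zsmul_mem_zmultiples _ _) (AddSubgroup.nsmul_mem_zmultiples _ _)), ?_⟩)
    have : v + (j • (N / q : ℝ) + i • (N / q : ℝ)) ∈ Metric.ball u δ := by
      rw [Real.ball_eq_Ioo, zsmul_eq_mul, nsmul_eq_mul]
      have := mul_nonneg (Nat.cast_nonneg (α := ℝ) i) hs.le
      constructor <;> nlinarith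
    exact hb this
  · refine nsmul_injOn_Iio_addOrderOf ?_ ?_ (add_left_cancel e) <;> rw [ho]
    · exact (mem_range.1 hi).trans (by exact_mod_cast hq1)
    · exact (mem_range.1 hi').trans (by exact_mod_cast hq1)

theorem circle_round {ι : Type} [Fintype ι] (σ : ι → Aff (AddCircle (N : ℝ))) (i2 i3 : ι)
    (h2 : σ i2 = ⟨1, ((√2 : ℝ) : AddCircle (N : ℝ))⟩)
    (h3 : σ i3 = ⟨1, ((√3 : ℝ) : AddCircle (N : ℝ))⟩)
    {ψ : AddCircle (N : ℝ) → ι → ℤ} (h0 : Lc ψ) (hM : ∀ x i, |ψ x i| ≤ 1)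
    (hev : ∀ᶠ x in residual _, Even (dv σ ψ x)) :
    ∃ φ : AddCircle (N : ℝ) → ι → ℤ, Lc φ ∧ (∀ x i, |φ x i| ≤ 1 + 2) ∧
      ∀ᶠ x in residual _, 2 * dv σ φ x = dv σ ψ x := by
  set Γ := Subgroup.closure (Set.range σ) with hΓ
  haveI : Countable Γ := by
    rw [hΓ, ← FreeGroup.range_lift_eq_closure]
    exact (Set.countable_range _).to_subtype
  set σ' : ι → Γ := fun i => ⟨σ i, Subgroup.subset_closure ⟨i, rfl⟩⟩ with hσ'
  have c1 : ∀ g (hg : g ∈ Γ), Conn σ' Set.univ 1 ⟨g, hg⟩ := by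
    intro g hg
    induction hg using Subgroup.closure_induction_left with
    | one => exact Relation.ReflTransGen.refl
    | mul_left x hx y hy ih =>
      obtain ⟨i, rfl⟩ := hx
      exact ih.trans (Conn.step trivial trivial ⟨i, Or.inl rfl⟩)
    | inv_mul_cancel x hx y hy ih =>
      obtain ⟨i, rfl⟩ := hx
      exact ih.trans (Conn.step trivial trivial ⟨i, Or.inr (Subtype.ext (by simp [hσ']))⟩)
  have p2 : ∀ n : ℤ, (σ' i2 ^ n).1 = ⟨1, n • ((√2 : ℝ) : AddCircle (N : ℝ))⟩ := fun n => by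
    rw [SubgroupClass.coe_zpow, ← tr_zpow, ← h2]
  have p3 : ∀ n : ℤ, (σ' i3 ^ n).1 = ⟨1, n • ((√3 : ℝ) : AddCircle (N : ℝ))⟩ := fun n => by
    rw [SubgroupClass.coe_zpow, ← tr_zpow, ← h3]
  refine round (σ := σ') h0 hM (oe_empty (fun u v => (c1 u.1 u.2).symm.trans (c1 v.1 v.2)) i2
    (fun m n h => ?_) (fun g => ?_) fun F hF => ?_)
    (fun g hg => aff_free g.1 fun h => hg (Subtype.ext h)) hev
  · have := congrArg (fun g : Γ => g.1.t) h
    simp only [p2] at this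
    have := (indep (N := N) (m := m - n) (n := 0) (by simp [sub_smul, this])).1
    omega
  · rcases Int.units_eq_one_or g.1.e with e | e
    · left
      refine Subtype.ext (Aff.ext ?_ ?_) <;> simp [hσ', h2, e]
    · right
      refine Subtype.ext (Aff.ext ?_ ?_) <;> simp [hσ', h2, e]
  · by_contra hc
    push Not at hc
    choose n hn using hc
    refine Set.infinite_of_injective_forall_mem
      (f := fun k : ℤ => σ' i2 ^ n (σ' i3 ^ k) * σ' i3 ^ k) (fun k l h => ?_) (fun k => hn _) hF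
    have := congrArg (fun g : Γ => g.1.t) h
    simp only [Subgroup.coe_mul, p2, p3, Aff.mul_t, one_smul] at this
    have := (indep (N := N) (m := n (σ' i3 ^ k) - n (σ' i3 ^ l)) (n := k - l) (by
      rw [sub_smul, sub_smul, ← add_sub_add_comm, this, sub_self])).2
    omega

theorem circle_half {ι : Type} [Fintype ι] (σ : ι → Aff (AddCircle (N : ℝ)))
    {ψ : AddCircle (N : ℝ) → ι → ℤ} (h0 : Lc ψ) (hM : ∀ x i, |ψ x i| ≤ 1)
    {A B : Set (AddCircle (N : ℝ))} (hA : IsOpen A) (hB : IsOpen B) (hne : A.Nonempty)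
    (hdv : ∀ᶠ x in residual _, dv σ ψ x = 2 * (ind (x ∈ A) - ind (x ∈ B))) :
    Eqd (Aff (AddCircle (N : ℝ))) (fun x => ind (x ∈ A)) (fun x => ind (x ∈ B)) := by
  set σ' : ι ⊕ Bool → Aff (AddCircle (N : ℝ)) := Sum.elim σ fun b =>
    cond b ⟨1, ((√2 : ℝ) : AddCircle (N : ℝ))⟩ ⟨1, ((√3 : ℝ) : AddCircle (N : ℝ))⟩ with hσ'
  have e0 : ∀ x, dv σ' (fun x => Sum.elim (ψ x) 0) x = dv σ ψ x := fun x => by
    simp [dv, Fintype.sum_sum_type, hσ']
  obtain ⟨φ, f1, f2, f3⟩ := circle_round σ' (.inr true) (.inr false) rfl rfl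
    (ψ := fun x => Sum.elim (ψ x) 0) (h0.comp fun a => Sum.elim a 0)
    (by rintro x (i | i) <;> simp [hM])
    (by
      filter_upwards [hdv] with x hx
      rw [e0, hx]
      exact even_two_mul _)
  obtain ⟨C, hC, hk⟩ := coset_count hA hne (3 * 2 ^ Fintype.card (ι ⊕ Bool) + 1)
  set τ : ι ⊕ Bool → AddCircle (N : ℝ) := fun i => (σ' i).t with hτ
  have mem : ∀ i, σ' i ∈ HΛ (Lam τ C) := by
    classical
    exact fun i => ⟨Pi.single i 1, 0, C.zero_mem, by simp [Pi.single_apply, hτ]⟩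
  have lA := (Lc.of_isOpen hA).comp ind
  have lB := (Lc.of_isOpen hB).comp ind
  have l1 : ∀ i, Lc fun x => (φ x i).toNat := fun i => f1.comp fun a => (a i).toNat
  have l2 : ∀ i, Lc fun x => (-φ x i).toNat := fun i => f1.comp fun a => (-a i).toNat
  have key : Eqd (HΛ (Lam τ C))
      (fun x => ∑ i, (φ x i).toNat + ∑ i, (-φ ((σ' i)⁻¹ • x) i).toNat)
      (fun x => ∑ i, (φ ((σ' i)⁻¹ • x) i).toNat + ∑ i, (-φ x i).toNat) :=
    (Eqd.mk' (fun i => (⟨σ' i, mem i⟩ : HΛ (Lam τ C))) _ l1 (Eventually.of_forall fun _ => rfl)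
      (Eventually.of_forall fun _ => rfl)).add
    (Eqd.mk' (fun i => (⟨σ' i, mem i⟩ : HΛ (Lam τ C))) _ l2 (Eventually.of_forall fun _ => rfl)
      (Eventually.of_forall fun _ => rfl)).symm
  have bd : ∀ (t : ι ⊕ Bool → ℤ), (∀ i, |t i| ≤ 1 + 2) →
      ∑ i, (t i).toNat ≤ Fintype.card (ι ⊕ Bool) * 3 := fun t ht =>
    Finset.sum_le_card_nsmul _ _ 3 fun i _ => by
      have := abs_le.1 (ht i)
      omega
  obtain ⟨n, γ, π, r1, r2, r3⟩ := cancel_all (τ := τ) hC hk
    (Fintype.card (ι ⊕ Bool) * 3 + Fintype.card (ι ⊕ Bool) * 3) _ (fun x => ind (x ∈ B))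
    (fun x => ∑ i, (φ ((σ' i)⁻¹ • x) i).toNat + ∑ i, (-φ x i).toNat) lA
    ((Lc.sum fun i => (l1 i).smul (σ' i)⁻¹).comp₂ (Lc.sum l2) (· + ·)) (fun _ => le_rfl)
    (fun x => Nat.add_le_add (bd _ fun i => f2 _ i) (bd _ fun i => by simpa using f2 x i))
    (((Eqd.refl lB).add key).congr (by
      filter_upwards [f3, hdv] with x a b
      rw [e0, b] at a
      have c1 : ∑ i, φ x i = ∑ i, ((φ x i).toNat : ℤ) - ∑ i, ((-φ x i).toNat : ℤ) := by
        rw [← Finset.sum_sub_distrib]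
        exact Finset.sum_congr rfl fun i _ => (Int.toNat_sub_toNat_neg _).symm
      have c2 : ∑ i, φ ((σ' i)⁻¹ • x) i = ∑ i, ((φ ((σ' i)⁻¹ • x) i).toNat : ℤ) -
          ∑ i, ((-φ ((σ' i)⁻¹ • x) i).toNat : ℤ) := by
        rw [← Finset.sum_sub_distrib]
        exact Finset.sum_congr rfl fun i _ => (Int.toNat_sub_toNat_neg _).symm
      unfold dv at a
      rw [c1, c2] at a
      zify
      linarith) (Eventually.of_forall fun _ => rfl))
  exact ⟨n, fun i => (γ i).1, π, r1, r2, r3⟩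

end Pool.Agent.H.MP_bf94fe_gt
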