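import Pool.Agent.H.MP_bf94fe_gt.Round

set_option autoImplicit false

namespace Pool.Agent.H.MP_bf94fe_gt

open Filter Topology Finset

open Classical in
noncomputable def ind (p : Prop) : ℕ := if p then 1 else 0

lemma ind_le (p : Prop) : ind p ≤ 1 := by unfold ind; split_ifs <;> simp
lemma ind_pos {p : Prop} (h : p) : ind p = 1 := by simp [ind, h]
lemma ind_neg {p : Prop} (h : ¬ p) : ind p = 0 := by simp [ind, h]

lemma greedy {X G : Type} [TopologicalSpace X] [Group G] [MulAction G X]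
    [ContinuousConstSMul G X] (l : List G) : ∀ (Z D : X → Prop), Lc Z → Lc D →
    ∃ (Z' D' : X → Prop) (j : X → X), Lc Z' ∧ Lc D' ∧ (∀ x, Z' x → Z x) ∧ (∀ x, D' x → D x) ∧
      Eqd G (fun x => ind (Z x ∧ ¬ Z' x)) (fun x => ind (D x ∧ ¬ D' x)) ∧
      (∀ x, Z' x → ∀ s ∈ l, ¬ D' (s • x)) ∧ Set.InjOn j {y | D y ∧ ¬ D' y} ∧
      ∀ y, D y → ¬ D' y → Z (j y) ∧ ∃ s ∈ l, j y = s⁻¹ • y := by
  classical
  induction l with
  | nil =>
    intro Z D hZ hD
    refine ⟨Z, D, id, hZ, hD, fun _ h => h, fun _ h => h, ?_, by simp, Set.injOn_id _,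
      fun y a b => absurd a b⟩
    simpa using Eqd.refl (G := G) (Lc.const (X := X) (ind False))
  | cons s l ih =>
    intro Z D hZ hD
    obtain ⟨Z', D', j, a1, a2, a3, a4, a5, a6, a7, a8⟩ := ih (fun x => Z x ∧ ¬ D (s • x))
      (fun y => D y ∧ ¬ Z (s⁻¹ • y)) (hZ.comp₂ (hD.smul s) fun p q => p ∧ ¬ q)
      (hD.comp₂ (hZ.smul s⁻¹) fun p q => p ∧ ¬ q)
    have e0 : Eqd G (fun x => ind (Z x ∧ D (s • x))) (fun y => ind (Z (s⁻¹ • y) ∧ D y)) :=
      ⟨1, fun _ => s, fun _ x => ind (Z x ∧ D (s • x)),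
        fun _ => hZ.comp₂ (hD.smul s) fun p q => ind (p ∧ q), by simp, by simp⟩
    refine ⟨Z', D', fun y => if Z (s⁻¹ • y) then s⁻¹ • y else j y, a1, a2, fun x h => (a3 x h).1,
      fun x h => (a4 x h).1, (e0.add a5).congr (Eventually.of_forall fun x => ?_)
        (Eventually.of_forall fun x => ?_), fun x h t ht => ?_, ?_, fun y b c => ?_⟩
    · have := a3 x
      by_cases p1 : Z x <;> by_cases p2 : D (s • x) <;> by_cases p3 : Z' x <;> simp_all [ind]
    · have := a4 x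
      by_cases p1 : D x <;> by_cases p2 : Z (s⁻¹ • x) <;> by_cases p3 : D' x <;> simp_all [ind]
    · rcases List.mem_cons.1 ht with rfl | ht
      · exact fun h' => (a3 x h).2 (a4 _ h').1
      · exact a6 x h t ht
    · intro y hy y' hy' e
      simp only at e
      split_ifs at e with p1 p2 p2
      · exact smul_left_cancel _ e
      · have := (a8 y' ⟨hy'.1, p2⟩ hy'.2).1.2
        rw [← e, smul_inv_smul] at this
        exact absurd hy.1 this
      · have := (a8 y ⟨hy.1, p1⟩ hy.2).1.2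
        rw [e, smul_inv_smul] at this
        exact absurd hy'.1 this
      · exact a7 ⟨⟨hy.1, p1⟩, hy.2⟩ ⟨⟨hy'.1, p2⟩, hy'.2⟩ e
    · dsimp only
      split_ifs with p1
      · exact ⟨p1, s, List.mem_cons_self, rfl⟩
      · obtain ⟨b1, t, ht, b2⟩ := a8 y ⟨b, p1⟩ c
        exact ⟨b1.1, t, List.mem_cons_of_mem _ ht, b2⟩

lemma plan_count {X G I : Type} [Group G] [MulAction G X] [Fintype I] (γ : I → G)
    (π : I → X → ℕ) (Y Y' : Finset X) (h : ∀ y ∈ Y, ∀ i, γ i • y ∈ Y') :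
    ∑ y ∈ Y, ∑ i, π i y ≤ ∑ y ∈ Y', ∑ i, π i ((γ i)⁻¹ • y) := by
  classical
  rw [Finset.sum_comm, Finset.sum_comm (s := Y')]
  refine Finset.sum_le_sum fun i _ => ?_
  have : ∑ y ∈ Y, π i y = ∑ y ∈ Y.image (γ i • ·), π i ((γ i)⁻¹ • y) := by
    rw [Finset.sum_image fun a _ b _ e => smul_left_cancel _ e]
    simp
  rw [this]
  refine Finset.sum_le_sum_of_subset fun y hy => ?_
  obtain ⟨a, ha, rfl⟩ := mem_image.1 hy
  exact h a ha i

/-- Maps `x ↦ ± x + t`. -/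
@[ext] structure Aff (T : Type) where
  e : ℤˣ
  t : T

variable {T : Type} [AddCommGroup T]

instance : Group (Aff T) where
  mul a b := ⟨a.e * b.e, a.t + a.e • b.t⟩
  one := ⟨1, 0⟩
  inv a := ⟨a.e⁻¹, -(a.e⁻¹ • a.t)⟩
  mul_assoc a b c := Aff.ext (mul_assoc _ _ _) (by
    show a.t + a.e • b.t + (a.e * b.e) • c.t = a.t + a.e • (b.t + b.e • c.t)
    rw [smul_add, mul_smul, add_assoc])
  one_mul a := Aff.ext (one_mul _) (by
    show 0 + (1 : ℤˣ) • a.t = a.t
    simp)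
  mul_one a := Aff.ext (mul_one _) (by
    show a.t + a.e • (0 : T) = a.t
    simp)
  inv_mul_cancel a := Aff.ext (inv_mul_cancel _) (by
    show -(a.e⁻¹ • a.t) + a.e⁻¹ • a.t = 0
    simp)

@[simp] lemma Aff.mul_e (a b : Aff T) : (a * b).e = a.e * b.e := rfl
@[simp] lemma Aff.mul_t (a b : Aff T) : (a * b).t = a.t + a.e • b.t := rfl
@[simp] lemma Aff.one_e : (1 : Aff T).e = 1 := rfl
@[simp] lemma Aff.one_t : (1 : Aff T).t = 0 := rfl
@[simp] lemma Aff.inv_e (a : Aff T) : a⁻¹.e = a.e⁻¹ := rfl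
@[simp] lemma Aff.inv_t (a : Aff T) : a⁻¹.t = -(a.e⁻¹ • a.t) := rfl

instance : MulAction (Aff T) T where
  smul a x := a.e • x + a.t
  one_smul x := by
    show (1 : ℤˣ) • x + 0 = x
    simp
  mul_smul a b x := by
    show (a.e * b.e) • x + (a.t + a.e • b.t) = a.e • (b.e • x + b.t) + a.t
    rw [smul_add, mul_smul]
    abel

lemma Aff.smul_def (a : Aff T) (x : T) : a • x = a.e • x + a.t := rfl

def HΛ (Λ : AddSubgroup T) : Subgroup (Aff T) where
  carrier := {g | g.t ∈ Λ}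
  mul_mem' := fun {a _} ha hb => Λ.add_mem ha (Λ.zsmul_mem hb a.e)
  one_mem' := Λ.zero_mem
  inv_mem' := fun {a} ha => Λ.neg_mem (Λ.zsmul_mem ha (a.e⁻¹ : ℤˣ))

variable {ι : Type} [Fintype ι] (τ : ι → T) (C : AddSubgroup T)

def Bs (M : ℕ) : Set T := {x | ∃ n : ι → ℤ, (∀ i, |n i| ≤ M) ∧ ∃ c ∈ C, x = ∑ i, n i • τ i + c}

def Lam : AddSubgroup T where
  carrier := {x | ∃ n : ι → ℤ, ∃ c ∈ C, x = ∑ i, n i • τ i + c}
  add_mem' := by
    rintro _ _ ⟨n, c, hc, rfl⟩ ⟨m, d, hd, rfl⟩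
    exact ⟨n + m, c + d, C.add_mem hc hd, by simp [add_smul, Finset.sum_add_distrib]; abel⟩
  zero_mem' := ⟨0, 0, C.zero_mem, by simp⟩
  neg_mem' := by
    rintro _ ⟨n, c, hc, rfl⟩
    exact ⟨-n, -c, C.neg_mem hc, by simp [Finset.sum_neg_distrib]; abel⟩

variable {τ C}

lemma Bs.add {M N : ℕ} {x y : T} (hx : x ∈ Bs τ C M) (hy : y ∈ Bs τ C N) :
    x + y ∈ Bs τ C (M + N) := by
  obtain ⟨n, hn, c, hc, rfl⟩ := hx
  obtain ⟨m, hm, d, hd, rfl⟩ := hy
  refine ⟨n + m, fun i => ?_, c + d, C.add_mem hc hd,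
    by simp [add_smul, Finset.sum_add_distrib]; abel⟩
  push_cast
  exact (abs_add_le _ _).trans (add_le_add (hn i) (hm i))

lemma Bs.neg {M : ℕ} {x : T} (hx : x ∈ Bs τ C M) : -x ∈ Bs τ C M := by
  obtain ⟨n, hn, c, hc, rfl⟩ := hx
  exact ⟨-n, fun i => by simpa using hn i, -c, C.neg_mem hc,
    by simp [Finset.sum_neg_distrib]; abel⟩

lemma Bs.of_mem (M : ℕ) {c : T} (hc : c ∈ C) : c ∈ Bs τ C M :=
  ⟨0, fun i => by simp, c, hc, by simp⟩

lemma Bs.mono {M N : ℕ} (h : M ≤ N) {x : T} (hx : x ∈ Bs τ C M) : x ∈ Bs τ C N := by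
  obtain ⟨n, hn, c⟩ := hx
  exact ⟨n, fun i => (hn i).trans (by exact_mod_cast h), c⟩

lemma Bs.lam {M : ℕ} {x : T} (hx : x ∈ Bs τ C M) : x ∈ Lam τ C := by
  obtain ⟨n, -, c⟩ := hx
  exact ⟨n, c⟩

lemma Bs.exists {x : T} (hx : x ∈ Lam τ C) : ∃ M, x ∈ Bs τ C M := by
  obtain ⟨n, c⟩ := hx
  refine ⟨∑ i, (n i).natAbs, n, fun i => ?_, c⟩
  rw [← Int.natCast_natAbs]
  exact_mod_cast Finset.single_le_sum (f := fun i => (n i).natAbs) (fun _ _ => Nat.zero_le _)
    (mem_univ i)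

lemma Bs.finite (hC : (C : Set T).Finite) (M : ℕ) : (Bs τ C M).Finite := by
  refine (((Set.Finite.pi' fun _ : ι => Set.finite_Icc (-(M : ℤ)) M).prod hC).image
    fun p : (ι → ℤ) × T => ∑ i, p.1 i • τ i + p.2).subset ?_
  rintro _ ⟨n, hn, c, hc, rfl⟩
  exact ⟨(n, c), ⟨fun i => abs_le.1 (hn i), hc⟩, rfl⟩

lemma Bs.double (hC : (C : Set T).Finite) (M : ℕ) :
    (Bs.finite (τ := τ) hC (M + M)).toFinset.card ≤
      2 ^ Fintype.card ι * (Bs.finite (τ := τ) hC M).toFinset.card := by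
  classical
  have : (Bs.finite (τ := τ) hC (M + M)).toFinset ⊆
      ((univ : Finset (ι → Bool)) ×ˢ (Bs.finite (τ := τ) hC M).toFinset).image
        fun p => ∑ i, (cond (p.1 i) (M : ℤ) (-M)) • τ i + p.2 := by
    intro x hx
    obtain ⟨n, hn, c, hc, rfl⟩ := (Set.Finite.mem_toFinset _).1 hx
    refine mem_image.2 ⟨(fun i => decide (0 ≤ n i),
      ∑ i, (n i - cond (decide (0 ≤ n i)) (M : ℤ) (-M)) • τ i + c),
      mem_product.2 ⟨mem_univ _, (Set.Finite.mem_toFinset _).2 ⟨_, fun i => ?_, c, hc, rfl⟩⟩, ?_⟩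
    · have := abs_le.1 (hn i)
      push_cast at this
      rw [abs_le]
      by_cases h : 0 ≤ n i <;> simp only [h, decide_true, decide_false, cond] <;> omega
    · simp only [sub_smul, Finset.sum_sub_distrib]
      abel
  refine (Finset.card_le_card this).trans (Finset.card_image_le.trans ?_)
  simp

lemma dcount (hC : (C : Set T).Finite) (Y : Finset T) (hY : ∀ y ∈ Y, ∀ c ∈ C, y + c ∈ Y)
    (Q : T → Prop) : ∑ y ∈ Y, ∑ c ∈ hC.toFinset, ind (Q (y + c)) =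
      hC.toFinset.card * ∑ y ∈ Y, ind (Q y) := by
  rw [Finset.sum_comm, ← smul_eq_mul, ← Finset.sum_const]
  refine Finset.sum_congr rfl fun c hc => ?_
  have hc' : c ∈ C := (Set.Finite.mem_toFinset _).1 hc
  exact Finset.sum_nbij' (· + c) (· + -c) (fun y hy => hY y hy c hc')
    (fun y hy => hY y hy _ (C.neg_mem hc')) (by simp) (by simp) (by simp)

variable [TopologicalSpace T] [IsTopologicalAddGroup T]

instance : ContinuousConstSMul (Aff T) T where
  continuous_const_smul a := by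
    show Continuous fun x => (a.e : ℤ) • x + a.t
    fun_prop

instance (H : Subgroup (Aff T)) : ContinuousConstSMul H T where
  continuous_const_smul a := continuous_const_smul a.1

lemma compare (hC : (C : Set T).Finite) {A P : Set T}
    (hA : ∀ y, 3 * 2 ^ Fintype.card ι + 1 ≤ ∑ c ∈ hC.toFinset, ind (y + c ∈ A))
    (hP : ∀ y, ∑ c ∈ hC.toFinset, ind (y + c ∈ P) ≤ 1) {z r u u' : T → ℕ} (hz : Lc z) (hr : Lc r)
    (h1 : ∀ᶠ x in residual T, z x ≤ ind (x ∈ P))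
    (h2 : ∀ᶠ x in residual T, ind (x ∈ A) ≤ r x + u x) (h3 : Eqd (HΛ (Lam τ C)) u u')
    (h4 : ∀ᶠ x in residual T, u' x ≤ ind (x ∈ P)) :
    ∃ w : T → ℕ, Lc w ∧ Eqd (HΛ (Lam τ C)) z w ∧ ∀ᶠ x in residual T, w x ≤ r x := by
  classical
  obtain ⟨n, γ, π, -, p2, p3⟩ := h3
  obtain ⟨R, hR⟩ : ∃ R, ∀ i, (γ i).1.t ∈ Bs τ C R := by
    choose R hR using fun i => Bs.exists (γ i).2
    exact ⟨∑ i, R i, fun i => Bs.mono (Finset.single_le_sum (f := R)
      (fun _ _ => Nat.zero_le _) (mem_univ i)) (hR i)⟩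
  set B1 := (Bs.finite (τ := τ) hC R).toFinset with hB1
  set B2 := (Bs.finite (τ := τ) hC (R + R)).toFinset with hB2
  have m1 : ∀ b, b ∈ B1 ↔ b ∈ Bs τ C R := fun b => Set.Finite.mem_toFinset _
  have m2 : ∀ b, b ∈ B2 ↔ b ∈ Bs τ C (R + R) := fun b => Set.Finite.mem_toFinset _
  obtain ⟨Z', D', j, a1, a2, a3, a4, a5, a6, a7, a8⟩ := greedy (G := HΛ (Lam τ C))
    (B1.attach.toList.map fun b : B1 =>
      (⟨⟨1, b.1⟩, Bs.lam ((m1 b.1).1 b.2)⟩ : HΛ (Lam τ C)))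
    (fun x => z x ≠ 0) (fun x => r x ≠ 0) (hz.comp (· ≠ 0)) (hr.comp (· ≠ 0))
  have hall : ∀ᶠ x in residual T, ∀ b ∈ B2, ∀ e : ℤˣ, z (e • x + b) ≤ ind (e • x + b ∈ P) ∧
      ind (e • x + b ∈ A) ≤ r (e • x + b) + ∑ i, π i (e • x + b) ∧
      ∑ i, π i ((γ i)⁻¹ • (e • x + b)) ≤ ind (e • x + b ∈ P) := by
    refine (eventually_all_finset B2).2 fun b _ => eventually_all.2 fun e => ?_
    refine res_smul (⟨e, b⟩ : Aff T) (p := fun y => z y ≤ ind (y ∈ P) ∧
      ind (y ∈ A) ≤ r y + ∑ i, π i y ∧ ∑ i, π i ((γ i)⁻¹ • y) ≤ ind (y ∈ P)) ?_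
    filter_upwards [h1, h2, h4, p2, p3] with y b1 b2 b3 b4 b5
    rw [b4, b5]
    exact ⟨b1, b2, b3⟩
  refine ⟨_, (hr.comp (· ≠ 0)).comp₂ a2 fun p q => ind (p ∧ ¬ q), a5.congr ?_
    (Eventually.of_forall fun _ => rfl), Eventually.of_forall fun x => ?_⟩
  swap
  · by_cases h : r x = 0
    · simp [ind, h]
    · exact (ind_le _).trans (Nat.one_le_iff_ne_zero.2 h)
  filter_upwards [hall, h1] with x hx hzx
  suffices hn : ¬ Z' x by
    have := ind_le (x ∈ P)
    by_cases h : z x = 0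
    · simp [ind, h]
    · rw [ind_pos ⟨h, hn⟩]
      omega
  intro hZ
  have inv : ∀ (M : ℕ) (p : T), ∀ y ∈ (Bs.finite (τ := τ) hC M).toFinset.image (p + ·),
      ∀ c ∈ C, y + c ∈ (Bs.finite (τ := τ) hC M).toFinset.image (p + ·) := by
    intro M p y hy c hc
    obtain ⟨b, hb, rfl⟩ := mem_image.1 hy
    exact mem_image.2 ⟨b + c, (Set.Finite.mem_toFinset _).2
      (Bs.add ((Set.Finite.mem_toFinset _).1 hb) (Bs.of_mem 0 hc)), (add_assoc _ _ _).symm⟩
  have cP : ∀ p : T, hC.toFinset.card * ∑ y ∈ B2.image (p + ·), ind (y ∈ P) ≤ B2.card := by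
    intro p
    rw [← dcount hC _ (inv _ p) (· ∈ P)]
    refine (Finset.sum_le_card_nsmul _ _ 1 fun y _ => hP y).trans ?_
    rw [smul_eq_mul, mul_one]
    exact Finset.card_image_le
  have cA : (3 * 2 ^ Fintype.card ι + 1) * B1.card ≤
      hC.toFinset.card * ∑ y ∈ B1.image (x + ·), ind (y ∈ A) := by
    rw [← dcount hC _ (inv _ x) (· ∈ A)]
    refine le_trans ?_ (Finset.card_nsmul_le_sum _ _ _ fun y _ => hA y)
    rw [Finset.card_image_of_injective _ (add_right_injective x), smul_eq_mul, mul_comm]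
  have s1 : ∑ y ∈ B1.image (x + ·), ind (y ∈ A) ≤
      ((B1.image (x + ·)).filter fun y => r y ≠ 0).card + ∑ y ∈ B1.image (x + ·), ∑ i, π i y := by
    rw [Finset.card_filter, ← Finset.sum_add_distrib]
    refine Finset.sum_le_sum fun y hy => ?_
    obtain ⟨b, hb, rfl⟩ := mem_image.1 hy
    have := (hx b ((m2 b).2 (Bs.mono (Nat.le_add_right _ _) ((m1 b).1 hb))) 1).2.1
    rw [one_smul] at this
    have := ind_le (x + b ∈ A)
    split_ifs <;> omega
  have s2 : ((B1.image (x + ·)).filter fun y => r y ≠ 0).card ≤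
      ∑ y ∈ B2.image (x + ·), ind (y ∈ P) := by
    have hD : ∀ y ∈ B1.image (x + ·), ¬ D' y := by
      intro y hy
      obtain ⟨b, hb, rfl⟩ := mem_image.1 hy
      have := a6 x hZ ⟨⟨1, b⟩, Bs.lam ((m1 _).1 hb)⟩
        (List.mem_map.2 ⟨⟨b, hb⟩, by simp, rfl⟩)
      simpa [Subgroup.smul_def, Aff.smul_def] using this
    unfold ind
    rw [← Finset.card_filter]
    refine Finset.card_le_card_of_injOn j (fun y hy => ?_) fun y hy y' hy' e => ?_
    · obtain ⟨hy1, hy2⟩ := mem_filter.1 hy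
      obtain ⟨b1, s, hs, b2⟩ := a8 y hy2 (hD y hy1)
      obtain ⟨b', -, rfl⟩ := List.mem_map.1 hs
      obtain ⟨b, hb, rfl⟩ := mem_image.1 hy1
      have e : j (x + b) = x + (b + -b'.1) := by
        rw [b2]
        simp [Subgroup.smul_def, Aff.smul_def, add_assoc]
      have hm : b + -b'.1 ∈ B2 := (m2 _).2 (Bs.add ((m1 _).1 hb) (Bs.neg ((m1 _).1 b'.2)))
      have := (hx _ hm 1).1
      rw [one_smul, ← e] at this
      refine mem_coe.2 (mem_filter.2 ⟨mem_image.2 ⟨_, hm, e.symm⟩, ?_⟩)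
      by_contra hn
      rw [ind_neg hn] at this
      exact b1 (by omega)
    · obtain ⟨hy1, hy2⟩ := mem_filter.1 hy
      obtain ⟨hy1', hy2'⟩ := mem_filter.1 hy'
      exact a7 ⟨hy2, hD y hy1⟩ ⟨hy2', hD y' hy1'⟩ e
  have s3 : ∑ y ∈ B1.image (x + ·), ∑ i, π i y ≤
      ∑ y ∈ B2.image (x + ·), ind (y ∈ P) + ∑ y ∈ B2.image (-x + ·), ind (y ∈ P) := by
    refine (plan_count γ π _ (B2.image (x + ·) ∪ B2.image (-x + ·)) fun y hy i => ?_).trans
      ((Finset.sum_le_sum (g := fun y => ind (y ∈ P)) fun y hy => ?_).trans ?_)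
    · obtain ⟨b, hb, rfl⟩ := mem_image.1 hy
      rw [Subgroup.smul_def, Aff.smul_def]
      rcases Int.units_eq_one_or (γ i).1.e with e | e <;> rw [e]
      · exact mem_union_left _ (mem_image.2 ⟨b + (γ i).1.t,
          (m2 _).2 (Bs.add ((m1 _).1 hb) (hR i)), by simp [add_assoc]⟩)
      · exact mem_union_right _ (mem_image.2 ⟨-b + (γ i).1.t,
          (m2 _).2 (Bs.add (Bs.neg ((m1 _).1 hb)) (hR i)), by simp; abel⟩)
    · rcases mem_union.1 hy with hy | hy <;> obtain ⟨b, hb, rfl⟩ := mem_image.1 hy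
      · simpa using (hx b hb 1).2.2
      · simpa using (hx b hb (-1)).2.2
    · rw [← Finset.sum_union_inter]
      exact Nat.le_add_right _ _
  have d := Bs.double (τ := τ) hC R
  have pos : 0 < B1.card := Finset.card_pos.2 ⟨0, (m1 _).2 (Bs.of_mem R C.zero_mem)⟩
  have c1 := cP x
  have c2 := cP (-x)
  have := Nat.mul_le_mul_left hC.toFinset.card (s1.trans (Nat.add_le_add s2 s3))
  rw [← hB1, ← hB2] at d
  nlinarith

lemma cancel_list (hC : (C : Set T).Finite) {A : Set T}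
    (hA : ∀ y, 3 * 2 ^ Fintype.card ι + 1 ≤ ∑ c ∈ hC.toFinset, ind (y + c ∈ A))
    (l : List (Set T)) (hl : ∀ P ∈ l, IsOpen P ∧ ∀ y, ∑ c ∈ hC.toFinset, ind (y + c ∈ P) ≤ 1) :
    ∀ a b c : T → ℕ, Lc a → Lc c → (∀ x, ind (x ∈ A) ≤ a x) →
      (∀ x, c x ≤ (l.map fun P => ind (x ∈ P)).sum) →
      Eqd (HΛ (Lam τ C)) (fun x => a x + c x) (fun x => b x + c x) → Eqd (HΛ (Lam τ C)) a b := by
  induction l with
  | nil =>
    intro a b c _ _ _ hc h
    refine h.congr (Eventually.of_forall fun x => ?_) (Eventually.of_forall fun x => ?_) <;>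
      simpa using hc x
  | cons P l ih =>
    intro a b c ha hc h1 h2 h3
    obtain ⟨p1, p2⟩ := hl P List.mem_cons_self
    have l1 : Lc fun x => min (c x) (ind (x ∈ P)) :=
      hc.comp₂ (Lc.of_isOpen p1) fun a p => min a (ind p)
    have l2 : Lc fun x => c x - min (c x) (ind (x ∈ P)) := hc.comp₂ l1 (· - ·)
    refine ih (fun Q hQ => hl Q (List.mem_cons_of_mem _ hQ)) a b _ ha l2 h1 (fun x => ?_)
      (Eqd.cancel (ha.comp₂ l2 (· + ·)) l1 (h3.congr (Eventually.of_forall fun x => by omega)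
        (Eventually.of_forall fun x => by omega)) fun z r u u' hz hr _ b1 b2 b3 b4 =>
        compare hC hA p2 hz hr ?_ ?_ b3 ?_)
    · have := h2 x
      simp only [List.map_cons, List.sum_cons] at this
      omega
    · filter_upwards [b1] with x hx using hx.trans (min_le_right _ _)
    · filter_upwards [b2] with x hx
      have := h1 x
      omega
    · filter_upwards [b4] with x hx using hx.trans (min_le_right _ _)

theorem cancel_all [CompactSpace T] [T2Space T] (hC : (C : Set T).Finite) {A : Set T}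
    (hA : ∀ y, 3 * 2 ^ Fintype.card ι + 1 ≤ ∑ c ∈ hC.toFinset, ind (y + c ∈ A)) (N : ℕ) :
    ∀ a b c : T → ℕ, Lc a → Lc c → (∀ x, ind (x ∈ A) ≤ a x) → (∀ x, c x ≤ N) →
      Eqd (HΛ (Lam τ C)) (fun x => a x + c x) (fun x => b x + c x) → Eqd (HΛ (Lam τ C)) a b := by
  classical
  have hV : ∀ x : T, ∃ V : Set T, IsOpen V ∧ x ∈ V ∧
      ∀ y, ∑ c ∈ hC.toFinset, ind (y + c ∈ V) ≤ 1 := by
    intro x
    obtain ⟨V, v1, v2, -, v4⟩ := small_nhds (G := Aff T) (hC.image fun c => (⟨1, c⟩ : Aff T))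
      (x := x) (by
        rintro _ ⟨c, -, rfl⟩ _ ⟨d, -, rfl⟩ e
        simpa [Aff.smul_def] using e) univ_mem
    refine ⟨V, v1, v2, fun y => ?_⟩
    unfold ind
    rw [← Finset.card_filter, Finset.card_le_one]
    intro c hc d hd
    obtain ⟨c1, c2⟩ := mem_filter.1 hc
    obtain ⟨d1, d2⟩ := mem_filter.1 hd
    have := v4 ⟨1, d⟩ ⟨d, (Set.Finite.mem_toFinset _).1 d1, rfl⟩ ⟨1, c⟩
      ⟨c, (Set.Finite.mem_toFinset _).1 c1, rfl⟩ _ c2 _ d2 (by simp [Aff.smul_def]; abel)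
    exact (congrArg Aff.t this).symm
  choose V v1 v2 v3 using hV
  obtain ⟨t, ht⟩ := isCompact_univ.elim_finite_subcover V v1 fun x _ => Set.mem_iUnion.2 ⟨x, v2 x⟩
  have cov : ∀ x, 1 ≤ ((t.toList.map V).map fun P => ind (x ∈ P)).sum := by
    intro x
    obtain ⟨y, hy, hxy⟩ := Set.mem_iUnion₂.1 (ht (Set.mem_univ x))
    rw [← ind_pos hxy]
    exact List.single_le_sum (fun _ _ => Nat.zero_le _) _
      (List.mem_map.2 ⟨V y, List.mem_map.2 ⟨y, Finset.mem_toList.2 hy, rfl⟩, rfl⟩)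
  induction N with
  | zero =>
    intro a b c _ _ _ hc h
    refine h.congr (Eventually.of_forall fun x => ?_) (Eventually.of_forall fun x => ?_) <;>
      simpa using hc x
  | succ N ih =>
    intro a b c ha hc h1 h2 h3
    have l1 : Lc fun x => min (c x) 1 := hc.comp fun a => min a 1
    have l2 : Lc fun x => c x - min (c x) 1 := hc.comp₂ l1 (· - ·)
    refine ih a b _ ha l2 h1 (fun x => by have := h2 x; omega)
      (cancel_list hC hA (t.toList.map V) (fun P hP => ?_) _ _ _ (ha.comp₂ l2 (· + ·)) l1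
        (fun x => (h1 x).trans (Nat.le_add_right _ _)) (fun x => (min_le_right _ _).trans (cov x))
        (h3.congr (Eventually.of_forall fun x => by omega)
          (Eventually.of_forall fun x => by omega)))
    obtain ⟨y, -, rfl⟩ := List.mem_map.1 hP
    exact ⟨v1 y, v3 y⟩

end Pool.Agent.H.MP_bf94fe_gt
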