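import Mathlib

set_option autoImplicit false

namespace Pool.Agent.H.MP_bf94fe_gt

open Filter Topology Finset

variable {X : Type} [TopologicalSpace X]

/-- Generically locally constant functions. -/
def Lc {α : Type} (f : X → α) : Prop := ∀ᶠ x in residual X, ∀ᶠ y in 𝓝 x, f y = f x

lemma Lc.comp {α β : Type} {f : X → α} (hf : Lc f) (h : α → β) : Lc (fun x => h (f x)) := by
  filter_upwards [hf] with x hx
  filter_upwards [hx] with y hy
  rw [hy]

lemma Lc.comp₂ {α β γ : Type} {f : X → α} {g : X → β} (hf : Lc f) (hg : Lc g) (h : α → β → γ) :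
    Lc (fun x => h (f x) (g x)) := by
  filter_upwards [hf, hg] with x hx hx'
  filter_upwards [hx, hx'] with y hy hy'
  rw [hy, hy']

lemma Lc.pi {ι α : Type} [Finite ι] {f : ι → X → α} (h : ∀ i, Lc (f i)) :
    Lc (fun x i => f i x) := by
  filter_upwards [eventually_all.2 h] with x hx
  filter_upwards [eventually_all.2 hx] with y hy
  exact funext hy

lemma Lc.const {α : Type} (a : α) : Lc (fun _ : X => a) :=
  Eventually.of_forall fun _ => Eventually.of_forall fun _ => rfl

lemma Lc.sum {ι α : Type} [Fintype ι] [AddCommMonoid α] {f : ι → X → α} (h : ∀ i, Lc (f i)) :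
    Lc (fun x => ∑ i, f i x) := (Lc.pi h).comp fun v => ∑ i, v i

lemma res_open {U : Set X} (hU : IsOpen U) : ∀ᶠ x in residual X, x ∈ U ∨ x ∉ closure U := by
  have h1 : IsOpen (frontier U)ᶜ := isClosed_frontier.isOpen_compl
  have h2 : Dense (frontier U)ᶜ := by
    rw [← interior_eq_empty_iff_dense_compl, ← frontier_compl]
    exact interior_frontier hU.isClosed_compl
  filter_upwards [residual_of_dense_open h1 h2] with x hx
  by_cases h : x ∈ closure U
  · left
    by_contra hn
    exact hx ⟨h, by rwa [hU.interior_eq]⟩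
  · exact Or.inr h

lemma Lc.of_isOpen {U : Set X} (hU : IsOpen U) : Lc (fun x => x ∈ U) := by
  filter_upwards [res_open hU] with x hx
  rcases hx with h | h
  · filter_upwards [hU.mem_nhds h] with y hy
    exact propext ⟨fun _ => h, fun _ => hy⟩
  · filter_upwards [isClosed_closure.isOpen_compl.mem_nhds h] with y hy
    exact propext ⟨fun h' => absurd (subset_closure h') hy, fun h' => absurd (subset_closure h') h⟩

variable {G : Type} [Group G] [MulAction G X] [ContinuousConstSMul G X]

lemma res_smul (g : G) {p : X → Prop} (h : ∀ᶠ x in residual X, p x) :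
    ∀ᶠ x in residual X, p (g • x) := by
  rw [← (Homeomorph.smul g).residual_map_eq] at h
  exact h

lemma Lc.smul {α : Type} {f : X → α} (hf : Lc f) (g : G) : Lc (fun x => f (g • x)) := by
  filter_upwards [res_smul g hf] with x hx
  exact (continuous_const_smul g).continuousAt.eventually hx

lemma table {I J : Type} [Fintype I] [Fintype J] (u : I → ℕ) (w : J → ℕ) :
    ∃ T : I → J → ℕ, ∑ i, u i = ∑ j, w j → (∀ i, ∑ j, T i j = u i) ∧ ∀ j, ∑ i, T i j = w j := by
  classical
  suffices h : ∀ n (u : I → ℕ) (w : J → ℕ), ∑ i, u i = n → ∑ j, w j = n →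
      ∃ T : I → J → ℕ, (∀ i, ∑ j, T i j = u i) ∧ ∀ j, ∑ i, T i j = w j by
    by_cases e : ∑ i, u i = ∑ j, w j
    · obtain ⟨T, hT⟩ := h _ u w e rfl
      exact ⟨T, fun _ => hT⟩
    · exact ⟨0, fun e' => absurd e' e⟩
  intro n
  induction n with
  | zero =>
    intro u w hu hw
    rw [Finset.sum_eq_zero_iff] at hu hw
    exact ⟨0, fun i => by simp [hu i], fun j => by simp [hw j]⟩
  | succ n ih =>
    intro u w hu hw
    obtain ⟨i0, -, hi⟩ := Finset.exists_ne_zero_of_sum_ne_zero (s := univ) (f := u) (by omega)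
    obtain ⟨j0, -, hj⟩ := Finset.exists_ne_zero_of_sum_ne_zero (s := univ) (f := w) (by omega)
    have e1 : ∀ i, u i = (u i - if i = i0 then 1 else 0) + if i = i0 then 1 else 0 := by
      intro i
      split_ifs with h
      · subst h; omega
      · simp
    have e2 : ∀ j, w j = (w j - if j = j0 then 1 else 0) + if j = j0 then 1 else 0 := by
      intro j
      split_ifs with h
      · subst h; omega
      · simp
    obtain ⟨T, h1, h2⟩ := ih (fun i => u i - if i = i0 then 1 else 0)
      (fun j => w j - if j = j0 then 1 else 0)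
      (by
        rw [Finset.sum_congr rfl fun i _ => e1 i, Finset.sum_add_distrib] at hu
        simpa using hu)
      (by
        rw [Finset.sum_congr rfl fun j _ => e2 j, Finset.sum_add_distrib] at hw
        simpa using hw)
    refine ⟨fun i j => T i j + (if i = i0 then 1 else 0) * (if j = j0 then 1 else 0),
      fun i => ?_, fun j => ?_⟩
    · rw [Finset.sum_add_distrib, h1, ← Finset.mul_sum]
      simpa using (e1 i).symm
    · rw [Finset.sum_add_distrib, h2, ← Finset.sum_mul]
      simpa using (e2 j).symm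

variable (G) in
/-- Generic equidecomposability of multiplicity functions. -/
def Eqd (a b : X → ℕ) : Prop :=
  ∃ (n : ℕ) (γ : Fin n → G) (π : Fin n → X → ℕ), (∀ i, Lc (π i)) ∧
    (∀ᶠ x in residual X, ∑ i, π i x = a x) ∧ ∀ᶠ x in residual X, ∑ i, π i ((γ i)⁻¹ • x) = b x

omit [ContinuousConstSMul G X] in
lemma Eqd.mk' {I : Type} [Fintype I] {a b : X → ℕ} (γ : I → G) (π : I → X → ℕ)
    (h1 : ∀ i, Lc (π i)) (h2 : ∀ᶠ x in residual X, ∑ i, π i x = a x)
    (h3 : ∀ᶠ x in residual X, ∑ i, π i ((γ i)⁻¹ • x) = b x) : Eqd G a b := by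
  set e := (Fintype.equivFin I).symm
  refine ⟨_, fun k => γ (e k), fun k => π (e k), fun k => h1 _, ?_, ?_⟩
  · filter_upwards [h2] with x hx
    rw [← hx]
    exact e.sum_comp fun i => π i x
  · filter_upwards [h3] with x hx
    rw [← hx]
    exact e.sum_comp fun i => π i ((γ i)⁻¹ • x)

omit [ContinuousConstSMul G X] in
lemma Eqd.congr {a b a' b' : X → ℕ} (h : Eqd G a b) (ha : ∀ᶠ x in residual X, a x = a' x)
    (hb : ∀ᶠ x in residual X, b x = b' x) : Eqd G a' b' := by
  obtain ⟨n, γ, π, h1, h2, h3⟩ := h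
  refine ⟨n, γ, π, h1, ?_, ?_⟩
  · filter_upwards [h2, ha] with x e e'
    rw [e, e']
  · filter_upwards [h3, hb] with x e e'
    rw [e, e']

omit [ContinuousConstSMul G X] in
lemma Eqd.refl {a : X → ℕ} (ha : Lc a) : Eqd G a a :=
  ⟨1, fun _ => 1, fun _ => a, fun _ => ha, by simp, by simp⟩

lemma Eqd.symm {a b : X → ℕ} (h : Eqd G a b) : Eqd G b a := by
  obtain ⟨n, γ, π, h1, h2, h3⟩ := h
  refine ⟨n, fun i => (γ i)⁻¹, fun i x => π i ((γ i)⁻¹ • x), fun i => (h1 i).smul _, h3, ?_⟩
  simpa using h2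

omit [ContinuousConstSMul G X] in
lemma Eqd.add {a b a' b' : X → ℕ} (h : Eqd G a b) (h' : Eqd G a' b') :
    Eqd G (fun x => a x + a' x) (fun x => b x + b' x) := by
  obtain ⟨n, γ, π, h1, h2, h3⟩ := h
  obtain ⟨n', γ', π', h1', h2', h3'⟩ := h'
  refine Eqd.mk' (I := Fin n ⊕ Fin n') (Sum.elim γ γ') (Sum.elim π π') ?_ ?_ ?_
  · rintro (i | i)
    exacts [h1 i, h1' i]
  · filter_upwards [h2, h2'] with x e e'
    simp [Fintype.sum_sum_type, e, e']
  · filter_upwards [h3, h3'] with x e e'
    simp [Fintype.sum_sum_type, e, e']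

lemma Eqd.trans {a b c : X → ℕ} (h : Eqd G a b) (h' : Eqd G b c) : Eqd G a c := by
  obtain ⟨n, γ, π, h1, h2, h3⟩ := h
  obtain ⟨n', γ', π', h1', h2', h3'⟩ := h'
  choose T hT using table (I := Fin n) (J := Fin n')
  set S : X → Fin n → Fin n' → ℕ :=
    fun y => T (fun i => π i ((γ i)⁻¹ • y)) (fun j => π' j y) with hS
  have hSG : Lc S := (Lc.pi fun i => (h1 i).smul (γ i)⁻¹).comp₂ (Lc.pi h1') T
  have hSr : ∀ᶠ y in residual X, (∀ i, ∑ j, S y i j = π i ((γ i)⁻¹ • y)) ∧
      ∀ j, ∑ i, S y i j = π' j y := by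
    filter_upwards [h3, h2'] with y e e'
    exact hT _ _ (by rw [e, e'])
  refine Eqd.mk' (I := Fin n × Fin n') (fun p => γ' p.2 * γ p.1)
    (fun p x => S (γ p.1 • x) p.1 p.2) (fun p => (hSG.smul (γ p.1)).comp fun v => v p.1 p.2) ?_ ?_
  · filter_upwards [h2, eventually_all.2 fun i => res_smul (γ i) hSr] with x e e'
    rw [Fintype.sum_prod_type, ← e]
    refine Finset.sum_congr rfl fun i _ => ?_
    simpa using (e' i).1 i
  · filter_upwards [h3', eventually_all.2 fun j => res_smul (γ' j)⁻¹ hSr] with x e e'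
    rw [Fintype.sum_prod_type_right, ← e]
    refine Finset.sum_congr rfl fun j _ => ?_
    simpa [mul_smul] using (e' j).2 j

lemma Eqd.split {a a' b : X → ℕ} (h : Eqd G (fun x => a x + a' x) b) (ha : Lc a) (ha' : Lc a') :
    ∃ c c' : X → ℕ, Lc c ∧ Lc c' ∧ (∀ᶠ x in residual X, c x + c' x = b x) ∧
      Eqd G a c ∧ Eqd G a' c' := by
  obtain ⟨n, γ, π, h1, h2, h3⟩ := h
  choose T hT using table (I := Fin n) (J := Bool)
  set S : X → Fin n → Bool → ℕ :=
    fun y => T (fun i => π i y) (fun j => cond j (a y) (a' y)) with hS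
  have hSG : Lc S := (Lc.pi h1).comp₂ (ha.comp₂ ha' fun u v j => cond j u v) T
  have hSr : ∀ᶠ y in residual X, (∀ i, ∑ j, S y i j = π i y) ∧
      ∀ j, ∑ i, S y i j = cond j (a y) (a' y) := by
    filter_upwards [h2] with y e
    exact hT _ _ (by simp [e])
  have hG : ∀ j i, Lc fun x => S x i j := fun j i => hSG.comp fun v => v i j
  refine ⟨fun x => ∑ i, S ((γ i)⁻¹ • x) i true, fun x => ∑ i, S ((γ i)⁻¹ • x) i false,
    Lc.sum fun i => (hG true i).smul _, Lc.sum fun i => (hG false i).smul _, ?_,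
    ⟨n, γ, fun i x => S x i true, hG true, ?_, Eventually.of_forall fun _ => rfl⟩,
    ⟨n, γ, fun i x => S x i false, hG false, ?_, Eventually.of_forall fun _ => rfl⟩⟩
  · filter_upwards [h3, eventually_all.2 fun i => res_smul (γ i)⁻¹ hSr] with x e e'
    rw [← e, ← Finset.sum_add_distrib]
    refine Finset.sum_congr rfl fun i _ => ?_
    simpa using (e' i).1 i
  · filter_upwards [hSr] with x e using e.2 true
  · filter_upwards [hSr] with x e using e.2 false

/-- The swap trick: a summand can be cancelled once a comparison is available. -/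
lemma Eqd.cancel {a b c : X → ℕ} (ha : Lc a) (hc : Lc c)
    (h : Eqd G (fun x => a x + c x) (fun x => b x + c x))
    (cmp : ∀ z r u u' : X → ℕ, Lc z → Lc r → Lc u → (∀ᶠ x in residual X, z x ≤ c x) →
      (∀ᶠ x in residual X, r x + u x = a x) → Eqd G u u' → (∀ᶠ x in residual X, u' x ≤ c x) →
      ∃ w : X → ℕ, Lc w ∧ Eqd G z w ∧ ∀ᶠ x in residual X, w x ≤ r x) : Eqd G a b := by
  obtain ⟨b1, b2, g1, g2, e, r1, r2⟩ := h.split ha hc
  have q22 : Lc fun x => min (b2 x) (c x) := g2.comp₂ hc min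
  have q12 : Lc fun x => c x - min (b2 x) (c x) := hc.comp₂ q22 (· - ·)
  have q21 : Lc fun x => b2 x - min (b2 x) (c x) := g2.comp₂ q22 (· - ·)
  have q11 : Lc fun x => b1 x - (c x - min (b2 x) (c x)) := g1.comp₂ q12 (· - ·)
  obtain ⟨z11, z12, p11, p12, e1, s11, s12⟩ := (r1.symm.congr (a' := fun x =>
    (b1 x - (c x - min (b2 x) (c x))) + (c x - min (b2 x) (c x))) (b' := a)
    (by filter_upwards [e] with x hx; omega) (Eventually.of_forall fun _ => rfl)).split q11 q12
  obtain ⟨z21, z22, p21, p22, e2, s21, s22⟩ := (r2.symm.congr (a' := fun x =>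
    (b2 x - min (b2 x) (c x)) + min (b2 x) (c x)) (b' := c)
    (Eventually.of_forall fun x => by omega) (Eventually.of_forall fun _ => rfl)).split q21 q22
  obtain ⟨w, pw, sw, ew⟩ := cmp z22 z11 z12 _ p22 p11 p12
    (by filter_upwards [e2] with x hx; omega) e1 s12.symm
    (Eventually.of_forall fun x => by omega)
  have pr : Lc fun x => z11 x - w x := p11.comp₂ pw (· - ·)
  have t1 := ((Eqd.refl (G := G) pr).add (sw.symm.trans s22.symm)).add s12.symm
  have t2 := ((Eqd.refl (G := G) pr).add sw).add (Eqd.refl (G := G) p21)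
  have t3 := s11.symm.add s21.symm
  refine ((t1.congr (a' := a) (b' := fun x => z11 x - w x + z22 x + z21 x) ?_ ?_).trans
    (t2.congr (Eventually.of_forall fun _ => rfl) ?_)).trans
    (t3.congr (Eventually.of_forall fun _ => rfl) ?_)
  · filter_upwards [e1, ew] with x h1 h2
    omega
  · filter_upwards [e2] with x h1
    omega
  · filter_upwards [ew] with x h1
    omega
  · filter_upwards [e] with x h1
    omega

end Pool.Agent.H.MP_bf94fe_gt
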