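import Mathlib

set_option autoImplicit false

namespace Pool.Agent.H.MP_bf94fe_gt

open Finset Relation

lemma euler {E V : Type} (n : ℕ) : ∀ (Z : Finset E) (src tgt : E → V), Z.card = n →
    (∀ f : V → ZMod 2, ∑ e ∈ Z, (f (src e) + f (tgt e)) = 0) →
    ∃ c : E → ℤ, (∀ e ∈ Z, c e = 1 ∨ c e = -1) ∧
      ∀ f : V → ℤ, ∑ e ∈ Z, c e * (f (src e) - f (tgt e)) = 0 := by
  classical
  induction n with
  | zero =>
    intro Z src tgt hZ _
    rw [Finset.card_eq_zero] at hZ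
    exact ⟨0, by simp [hZ], by simp [hZ]⟩
  | succ n ih =>
    intro Z src tgt hZ h
    obtain ⟨e, he⟩ := Finset.card_pos.1 (show 0 < Z.card by omega)
    have hc : (Z.erase e).card = n := by rw [Finset.card_erase_of_mem he]; omega
    have two : ∀ a : ZMod 2, a + a = 0 := by decide
    have fin : ∀ (c' : E → ℤ) (a : ℤ), (∀ e' ∈ Z.erase e, c' e' = 1 ∨ c' e' = -1) →
        (a = 1 ∨ a = -1) → (∀ f : V → ℤ, a * (f (src e) - f (tgt e)) +
          ∑ e' ∈ Z.erase e, c' e' * (f (src e') - f (tgt e')) = 0) →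
        ∃ c : E → ℤ, (∀ e ∈ Z, c e = 1 ∨ c e = -1) ∧
          ∀ f : V → ℤ, ∑ e ∈ Z, c e * (f (src e) - f (tgt e)) = 0 := by
      intro c' a h1 h2 h3
      refine ⟨Function.update c' e a, fun x hx => ?_, fun f => ?_⟩
      · by_cases hxe : x = e
        · subst hxe
          simpa using h2
        · rw [Function.update_of_ne hxe]
          exact h1 x (mem_erase.2 ⟨hxe, hx⟩)
      · rw [← Finset.add_sum_erase _ _ he, Function.update_self, ← h3 f]
        congr 1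
        exact Finset.sum_congr rfl fun x hx => by rw [Function.update_of_ne (ne_of_mem_erase hx)]
    by_cases hl : src e = tgt e
    · obtain ⟨c', h1, h2⟩ := ih (Z.erase e) src tgt hc fun f => by
        have := h f
        rwa [← Finset.add_sum_erase _ _ he, hl, two, zero_add] at this
      exact fin c' 1 h1 (Or.inl rfl) fun f => by rw [h2, hl]; simp
    have h0 := h fun v => if v = tgt e then 1 else 0
    rw [← Finset.add_sum_erase _ _ he, if_neg hl, if_pos rfl] at h0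
    obtain ⟨e', he', hne⟩ := Finset.exists_ne_zero_of_sum_ne_zero (s := Z.erase e)
      (f := fun x => (if src x = tgt e then (1 : ZMod 2) else 0) + if tgt x = tgt e then 1 else 0)
      (by
        intro h1
        rw [h1] at h0
        exact absurd h0 (by decide))
    by_cases hs : src e' = tgt e
    · obtain ⟨c', h1, h2⟩ := ih (Z.erase e) (Function.update src e' (src e)) tgt hc fun f => by
        have := h f
        rw [← Finset.add_sum_erase _ _ he, ← Finset.add_sum_erase _ _ he', hs] at this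
        rw [← Finset.add_sum_erase _ _ he', Function.update_self,
          Finset.sum_congr rfl fun x hx => by rw [Function.update_of_ne (ne_of_mem_erase hx)]]
        linear_combination this - two (f (tgt e))
      refine fin c' (c' e') h1 (h1 e' he') fun f => ?_
      have := h2 f
      rw [← Finset.add_sum_erase _ _ he', Function.update_self,
        Finset.sum_congr rfl fun x hx => by rw [Function.update_of_ne (ne_of_mem_erase hx)]] at this
      rw [← Finset.add_sum_erase _ _ he', hs]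
      linear_combination this
    · have ht : tgt e' = tgt e := by
        by_contra ht
        simp [hs, ht] at hne
      obtain ⟨c', h1, h2⟩ := ih (Z.erase e) src (Function.update tgt e' (src e)) hc fun f => by
        have := h f
        rw [← Finset.add_sum_erase _ _ he, ← Finset.add_sum_erase _ _ he', ht] at this
        rw [← Finset.add_sum_erase _ _ he', Function.update_self,
          Finset.sum_congr rfl fun x hx => by rw [Function.update_of_ne (ne_of_mem_erase hx)]]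
        linear_combination this - two (f (tgt e))
      refine fin c' (-c' e') h1 (by rcases h1 e' he' with a | a <;> simp [a]) fun f => ?_
      have := h2 f
      rw [← Finset.add_sum_erase _ _ he', Function.update_self,
        Finset.sum_congr rfl fun x hx => by rw [Function.update_of_ne (ne_of_mem_erase hx)]] at this
      rw [← Finset.add_sum_erase _ _ he', ht]
      linear_combination this

variable {G ι : Type} [Group G] {σ : ι → G}

variable (σ) in
def Adj (u v : G) : Prop := ∃ i, v = σ i * u ∨ u = σ i * v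

variable (σ) in
def Conn (P : Set G) (u v : G) : Prop :=
  ReflTransGen (fun a b => a ∈ P ∧ b ∈ P ∧ Adj σ a b) u v

lemma Adj.symm {u v : G} (h : Adj σ u v) : Adj σ v u := h.imp fun _ h => h.symm

lemma Adj.mul {u v : G} (h : Adj σ u v) (k : G) : Adj σ (u * k) (v * k) :=
  h.imp fun _ h => h.imp (fun e => by rw [e, mul_assoc]) fun e => by rw [e, mul_assoc]

lemma Conn.mono {P Q : Set G} {u v : G} (h : Conn σ P u v) (hPQ : P ⊆ Q) : Conn σ Q u v := by
  induction h with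
  | refl => exact ReflTransGen.refl
  | tail _ h2 ih => exact ReflTransGen.tail ih ⟨hPQ h2.1, hPQ h2.2.1, h2.2.2⟩

lemma Conn.trans {P : Set G} {u v w : G} (h : Conn σ P u v) (h' : Conn σ P v w) :
    Conn σ P u w := ReflTransGen.trans h h'

lemma Conn.step {P : Set G} {u v : G} (hu : u ∈ P) (hv : v ∈ P) (h : Adj σ u v) :
    Conn σ P u v := ReflTransGen.single ⟨hu, hv, h⟩

lemma Conn.symm {P : Set G} {u v : G} (h : Conn σ P u v) : Conn σ P v u := by
  induction h with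
  | refl => exact ReflTransGen.refl
  | tail _ h2 ih => exact (Conn.step h2.2.1 h2.1 h2.2.2.symm).trans ih

lemma Conn.finite {P : Set G} {u v : G} (h : Conn σ P u v) :
    ∃ Q : Set G, Q.Finite ∧ Q ⊆ P ∧ Conn σ Q u v := by
  induction h with
  | refl => exact ⟨∅, Set.finite_empty, Set.empty_subset _, ReflTransGen.refl⟩
  | @tail b c _ h2 ih =>
    obtain ⟨Q, h1, h3, h4⟩ := ih
    refine ⟨insert b (insert c Q), (h1.insert c).insert b,
      Set.insert_subset h2.1 (Set.insert_subset h2.2.1 h3),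
      (h4.mono ((Set.subset_insert _ _).trans (Set.subset_insert _ _))).trans
        (Conn.step (by simp) (by simp) h2.2.2)⟩

lemma Conn.mul {P Q : Set G} {u v : G} (h : Conn σ P u v) (k : G) (hPQ : ∀ g ∈ P, g * k ∈ Q) :
    Conn σ Q (u * k) (v * k) := by
  induction h with
  | refl => exact ReflTransGen.refl
  | tail _ h2 ih => exact ih.trans (Conn.step (hPQ _ h2.1) (hPQ _ h2.2.1) (h2.2.2.mul k))

lemma adj_finite [Finite ι] {F : Set G} (hF : F.Finite) : {v | ∃ u ∈ F, Adj σ u v}.Finite := by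
  refine ((hF.biUnion fun u _ => Set.finite_range fun i => σ i * u).union
    (hF.biUnion fun u _ => Set.finite_range fun i => (σ i)⁻¹ * u)).subset ?_
  rintro v ⟨u, hu, i, h | h⟩
  · exact Or.inl (Set.mem_biUnion hu ⟨i, h.symm⟩)
  · exact Or.inr (Set.mem_biUnion hu ⟨i, by simp [h]⟩)

variable (σ) in
def Sat (W : Set G) : Prop := ∀ F : Set G, F.Finite → ∃ L : Set G, L.Finite ∧ F ⊆ L ∧
  L ⊆ F ∪ W ∧ ∀ u ∈ L, ∀ v ∈ W, Adj σ u v → v ∈ L

variable (σ) in
def OE (W : Set G) : Prop := ∀ F : Set G, F.Finite → ∃ L : Set G, L.Finite ∧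
  ∀ u v, u ∉ W ∪ L → v ∉ W ∪ L → Conn σ (W ∪ F)ᶜ u v

lemma grow {W : Set G} (h1 : Sat σ W) (h2 : OE σ W) {F : Set G} (hF : F.Finite) :
    ∃ L : Set G, L.Finite ∧ F ⊆ L ∧ (∀ u ∈ L, ∀ v ∈ W, Adj σ u v → v ∈ L) ∧
      ∀ u v, u ∉ W ∪ L → v ∉ W ∪ L → Conn σ (W ∪ L)ᶜ u v := by
  obtain ⟨F1, hF1, hc⟩ := h2 F hF
  set q : G → Prop := fun u => ∃ z, z ∉ W ∪ F1 ∧ Conn σ (W ∪ F)ᶜ u z with hq
  have hNa : {u | u ∉ W ∧ ¬ q u}.Finite := by
    refine hF1.subset fun u hu => ?_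
    by_contra hn
    exact hu.2 ⟨u, fun h => h.elim hu.1 hn, ReflTransGen.refl⟩
  obtain ⟨L, hL, l1, l2, l3⟩ := h1 _ (hF.union hNa)
  refine ⟨L, hL, Set.subset_union_left.trans l1, l3, fun u v hu hv => ?_⟩
  have hqu : ∀ u, u ∉ W ∪ L → q u := by
    intro u hu
    by_contra hn
    exact hu (Or.inr (l1 (Or.inr ⟨fun h => hu (Or.inl h), hn⟩)))
  have key : ∀ a b, q a → Conn σ (W ∪ F)ᶜ a b → q b ∧ Conn σ (W ∪ L)ᶜ a b := by
    intro a b ha h
    induction h with
    | refl => exact ⟨ha, ReflTransGen.refl⟩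
    | @tail b c _ h2 ih =>
      obtain ⟨z, hz, hz'⟩ := ih.1
      have hc' : q c := ⟨z, hz, (Conn.step h2.2.1 h2.1 h2.2.2.symm).trans hz'⟩
      have mem : ∀ t, t ∈ (W ∪ F)ᶜ → q t → t ∈ (W ∪ L)ᶜ := by
        rintro t ht hqt (h | h)
        · exact ht (Or.inl h)
        · rcases l2 h with (h | h) | h
          · exact ht (Or.inr h)
          · exact h.2 hqt
          · exact ht (Or.inl h)
      exact ⟨hc', ih.2.trans (Conn.step (mem _ h2.1 ih.1) (mem _ h2.2.1 hc') h2.2.2)⟩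
  obtain ⟨z, hz, hz'⟩ := hqu u hu
  obtain ⟨w, hw, hw'⟩ := hqu v hv
  exact (key u v (hqu u hu) ((hz'.trans (hc z w hz hw)).trans hw'.symm)).2

variable (σ) in
/-- A finite patch `K` with a neighbourhood `R` allowing detours. -/
structure Patch (W0 K R : Set G) : Prop where
  fin : R.Finite
  sub : K ⊆ R
  nb : ∀ u ∈ K, ∀ v, Adj σ u v → v ∈ R
  sat : ∀ u ∈ K, ∀ v ∈ W0, Adj σ u v → v ∈ K
  con : ∀ u v, u ∉ K → v ∉ K → (∃ a ∈ K, Adj σ a u) → (∃ a ∈ K, Adj σ a v) →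
    Conn σ (R \ (W0 ∪ K)) u v

lemma exists_patch [Finite ι] {W : Set G} (h1 : Sat σ W) (h2 : OE σ W) {F : Set G}
    (hF : F.Finite) : ∃ K R : Set G, F ⊆ K ∧ Patch σ W K R := by
  obtain ⟨K, hK, k1, k2, k3⟩ := grow h1 h2 hF
  have hN := adj_finite (σ := σ) hK
  have : ∀ u v, ∃ Q : Set G, Q.Finite ∧ (u ∉ W ∪ K → v ∉ W ∪ K →
      Q ⊆ (W ∪ K)ᶜ ∧ Conn σ Q u v) := by
    intro u v
    by_cases h : u ∉ W ∪ K ∧ v ∉ W ∪ K
    · obtain ⟨Q, q1, q2, q3⟩ := (k3 u v h.1 h.2).finite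
      exact ⟨Q, q1, fun _ _ => ⟨q2, q3⟩⟩
    · exact ⟨∅, Set.finite_empty, fun a b => absurd ⟨a, b⟩ h⟩
  choose Q hQ hQ' using this
  refine ⟨K, K ∪ {v | ∃ u ∈ K, Adj σ u v} ∪ ⋃ u ∈ {v | ∃ u ∈ K, Adj σ u v},
    ⋃ v ∈ {v | ∃ u ∈ K, Adj σ u v}, Q u v, k1,
    (hK.union hN).union (hN.biUnion fun u _ => hN.biUnion fun v _ => hQ u v),
    fun x hx => Or.inl (Or.inl hx), fun u hu v h => Or.inl (Or.inr ⟨u, hu, h⟩), k2, ?_⟩
  intro u v hu hv hu' hv'
  have out : ∀ u, u ∉ K → (∃ a ∈ K, Adj σ a u) → u ∉ W ∪ K := by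
    rintro u hu ⟨a, ha, h⟩ (h' | h')
    · exact hu (k2 a ha u h' h)
    · exact hu h'
  obtain ⟨q1, q2⟩ := hQ' u v (out u hu hu') (out v hv hv')
  exact q2.mono fun x hx => ⟨Or.inr (Set.mem_biUnion hu' (Set.mem_biUnion hv' hx)), q1 hx⟩

section
variable {W W0 K R Y : Set G} (hp : Patch σ W0 K R)
  (dis : ∀ h ∈ Y, ∀ h' ∈ Y, ∀ g ∈ R, ∀ g' ∈ R, g * h = g' * h' → h = h')
  (pat : ∀ h ∈ Y, ∀ g ∈ R, g * h ∈ W ↔ g ∈ W0)
include hp dis pat

omit dis pat in
lemma Patch.near_finite {F : Set G} (hF : F.Finite) :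
    {x | ∃ h, (∃ g ∈ R, g * h ∈ F) ∧ x * h⁻¹ ∈ R}.Finite := by
  refine (hp.fin.biUnion fun g _ => hF.biUnion fun f _ =>
    hp.fin.image fun r => r * (g⁻¹ * f)).subset ?_
  rintro x ⟨h, ⟨g, hg, hf⟩, hx⟩
  exact Set.mem_biUnion hg (Set.mem_biUnion hf ⟨_, hx, by simp⟩)

lemma Patch.sat' [Finite ι] (hW : Sat σ W) : Sat σ (W ∪ {g | ∃ h ∈ Y, g * h⁻¹ ∈ K}) := by
  intro F hF
  obtain ⟨L, l0, l1, l2, l3⟩ := hW F hF
  refine ⟨L ∪ {x | ∃ h ∈ Y, (∃ g ∈ R, g * h ∈ L) ∧ x * h⁻¹ ∈ K},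
    l0.union ((hp.near_finite l0).subset fun x ⟨h, _, a, b⟩ => ⟨h, a, hp.sub b⟩),
    l1.trans Set.subset_union_left, ?_, ?_⟩
  · rintro x (hx | ⟨h, hh, -, hx⟩)
    · exact (l2 hx).imp id Or.inl
    · exact Or.inr (Or.inr ⟨h, hh, hx⟩)
  · rintro u (hu | ⟨h, hh, a, hu⟩) v (hv | ⟨h', hh', hv⟩) hadj
    · exact Or.inl (l3 u hu v hv hadj)
    · exact Or.inr ⟨h', hh', ⟨u * h'⁻¹, hp.nb _ hv _ (hadj.symm.mul _), by simpa using hu⟩, hv⟩
    · have hr := hp.nb _ hu _ (hadj.mul h⁻¹)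
      exact Or.inr ⟨h, hh, a, hp.sat _ hu _ ((pat h hh _ hr).1 (by simpa using hv))
        (hadj.mul h⁻¹)⟩
    · have hr := hp.nb _ hu _ (hadj.mul h⁻¹)
      have := dis h hh h' hh' _ hr _ (hp.sub hv) (by simp)
      subst this
      exact Or.inr ⟨h, hh, a, hv⟩

lemma Patch.oe' (hW : OE σ W) : OE σ (W ∪ {g | ∃ h ∈ Y, g * h⁻¹ ∈ K}) := by
  intro F hF
  obtain ⟨L, l0, l1⟩ := hW _ (hF.union (hp.near_finite hF))
  refine ⟨L, l0, fun u v hu hv => ?_⟩
  set W' := W ∪ {g | ∃ h ∈ Y, g * h⁻¹ ∈ K} with hW'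
  have key : ∀ b, Conn σ (W ∪ (F ∪ {x | ∃ h, (∃ g ∈ R, g * h ∈ F) ∧ x * h⁻¹ ∈ R}))ᶜ u b →
      ((¬ ∃ h ∈ Y, b * h⁻¹ ∈ K) ∧ Conn σ (W' ∪ F)ᶜ u b) ∨
        ∃ h ∈ Y, b * h⁻¹ ∈ K ∧ ∃ c, c * h⁻¹ ∉ K ∧ (∃ a ∈ K, Adj σ a (c * h⁻¹)) ∧
          Conn σ (W' ∪ F)ᶜ u c := by
    intro b hb
    induction hb with
    | refl => exact Or.inl ⟨fun h => hu (Or.inl (Or.inr h)), ReflTransGen.refl⟩
    | @tail b c _ h2 ih =>
      obtain ⟨hb, hc, hadj⟩ := h2
      rcases ih with ⟨i1, i2⟩ | ⟨h, hh, i1, d, d1, d2, d3⟩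
      · by_cases hcK : ∃ h ∈ Y, c * h⁻¹ ∈ K
        · obtain ⟨h, hh, hcK⟩ := hcK
          exact Or.inr ⟨h, hh, hcK, b, fun h' => i1 ⟨h, hh, h'⟩,
            ⟨_, hcK, hadj.symm.mul _⟩, i2⟩
        · refine Or.inl ⟨hcK, i2.trans (Conn.step ?_ ?_ hadj)⟩
          · rintro ((a | a) | a)
            exacts [hb (Or.inl a), i1 a, hb (Or.inr (Or.inl a))]
          · rintro ((a | a) | a)
            exacts [hc (Or.inl a), hcK a, hc (Or.inr (Or.inl a))]
      · by_cases hcK : c * h⁻¹ ∈ K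
        · exact Or.inr ⟨h, hh, hcK, d, d1, d2, d3⟩
        · have hr := hp.nb _ i1 _ (hadj.mul h⁻¹)
          left
          constructor
          · rintro ⟨h', hh', a⟩
            have := dis h hh h' hh' _ hr _ (hp.sub a) (by simp)
            subst this
            exact hcK a
          · have := (hp.con _ _ d1 hcK d2 ⟨_, i1, hadj.mul h⁻¹⟩).mul (Q := (W' ∪ F)ᶜ) h (by
              rintro g ⟨g1, g2⟩ ((a | ⟨h', hh', a⟩) | a)
              · exact g2 (Or.inl ((pat h hh g g1).1 a))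
              · have := dis h hh h' hh' _ g1 _ (hp.sub a) (by simp)
                subst this
                exact g2 (Or.inr (by simpa using a))
              · exact hb (Or.inr (Or.inr ⟨h, ⟨g, g1, a⟩, hp.sub i1⟩)))
            simp only [inv_mul_cancel_right] at this
            exact d3.trans this
  rcases key v (l1 u v (fun a => hu (a.imp Or.inl id)) (fun a => hv (a.imp Or.inl id))) with
    a | ⟨h, hh, a, -⟩
  · exact a.2
  · exact absurd (Or.inl (Or.inr ⟨h, hh, a⟩)) hv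

end

end Pool.Agent.H.MP_bf94fe_gt
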