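import Pool.Agent.H.MP_bf94fe_gt.Graph

set_option autoImplicit false

namespace Pool.Agent.H.MP_bf94fe_gt

open Finset Relation

variable {G ι : Type} [Group G] {σ : ι → G}

variable (σ) in
noncomputable def pr (J : G × ι →₀ ZMod 2) (f : G → ZMod 2) : ZMod 2 :=
  J.sum fun e a => a * (f e.1 + f (σ e.2 * e.1))

lemma pr_add (J J' : G × ι →₀ ZMod 2) (f : G → ZMod 2) :
    pr σ (J + J') f = pr σ J f + pr σ J' f :=
  Finsupp.sum_add_index' (fun _ => zero_mul _) fun _ _ _ => add_mul _ _ _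

lemma pr_sum {α : Type} (s : Finset α) (J : α → G × ι →₀ ZMod 2) (f : G → ZMod 2) :
    pr σ (∑ a ∈ s, J a) f = ∑ a ∈ s, pr σ (J a) f := by
  classical
  induction s using Finset.induction_on with
  | empty => simp [pr]
  | insert a s ha ih => rw [Finset.sum_insert ha, Finset.sum_insert ha, pr_add, ih]

lemma Conn.chain {P : Set G} {u v : G} (h : Conn σ P u v) :
    ∃ J : G × ι →₀ ZMod 2, (∀ e, J e ≠ 0 → e.1 ∈ P ∧ σ e.2 * e.1 ∈ P) ∧
      ∀ f, pr σ J f = f u + f v := by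
  classical
  have two : ∀ a : ZMod 2, a + a = 0 := by decide
  induction h with
  | refl => exact ⟨0, by simp, fun f => by simp [pr, two]⟩
  | @tail b c _ h2 ih =>
    obtain ⟨J, j1, j2⟩ := ih
    obtain ⟨hb, hc, i, h | h⟩ := h2
    · refine ⟨J + Finsupp.single (b, i) 1, fun e he => ?_, fun f => ?_⟩
      · by_cases h' : J e = 0
        · have : (b, i) = e := by
            by_contra hn
            simp [h', Finsupp.single_eq_of_ne' hn] at he
          subst this
          exact ⟨hb, h ▸ hc⟩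
        · exact j1 e h'
      · rw [pr_add, j2, pr, Finsupp.sum_single_index (zero_mul _), ← h]
        linear_combination two (f b)
    · refine ⟨J + Finsupp.single (c, i) 1, fun e he => ?_, fun f => ?_⟩
      · by_cases h' : J e = 0
        · have : (c, i) = e := by
            by_contra hn
            simp [h', Finsupp.single_eq_of_ne' hn] at he
          subst this
          exact ⟨hc, h ▸ hb⟩
        · exact j1 e h'
      · rw [pr_add, j2, pr, Finsupp.sum_single_index (zero_mul _), ← h]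
        linear_combination two (f b)

/-- The local rounding step. -/
lemma local_round [Fintype ι] (ψ : G → ι → ℤ) {W L : Set G} (hL : L.Finite)
    (sat : ∀ u ∈ L, ∀ v ∈ W, Adj σ u v → v ∈ L)
    (con : ∀ u v, u ∉ W ∪ L → v ∉ W ∪ L → Conn σ (W ∪ L)ᶜ u v)
    (ev : ∀ g ∈ L, Even (∑ i, ψ g i - ∑ i, ψ ((σ i)⁻¹ * g) i)) :
    ∃ (Z : Finset (G × ι)) (c : G × ι → ℤ), (∀ e ∈ Z, c e = 1 ∨ c e = -1) ∧
      (∀ f : G → ℤ, ∑ e ∈ Z, c e * (f e.1 - f (σ e.2 * e.1)) = 0) ∧
      (∀ e : G × ι, e.1 ∈ L ∨ σ e.2 * e.1 ∈ L → (e ∈ Z ↔ Odd (ψ e.1 e.2))) ∧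
      ∀ e ∈ Z, (e.1 ∈ L ∨ σ e.2 * e.1 ∈ L) ∨ (e.1 ∉ W ∧ σ e.2 * e.1 ∉ W) := by
  classical
  have two : ∀ a : ZMod 2, a + a = 0 := by decide
  set Lf := hL.toFinset with hLf
  set Et : Finset (G × ι) := Lf ×ˢ univ ∪ (Lf ×ˢ univ).image fun e => ((σ e.2)⁻¹ * e.1, e.2)
    with hEt
  have mEt : ∀ e : G × ι, e ∈ Et ↔ e.1 ∈ L ∨ σ e.2 * e.1 ∈ L := by
    rintro ⟨g, i⟩
    simp only [hEt, hLf, mem_union, mem_product, Set.Finite.mem_toFinset, mem_univ, and_true,
      mem_image, Prod.mk.injEq, Prod.exists]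
    refine or_congr Iff.rfl ⟨?_, fun h => ⟨_, i, h, by simp, rfl⟩⟩
    rintro ⟨a, j, h, rfl, rfl⟩
    simpa using h
  set Z0 := Et.filter fun e => Odd (ψ e.1 e.2) with hZ0
  have hbase : ∃ u0, ∀ t, ∃ J : G × ι →₀ ZMod 2,
      (∀ e, J e ≠ 0 → e.1 ∉ W ∪ L ∧ σ e.2 * e.1 ∉ W ∪ L) ∧
      (t ∈ L → J = 0) ∧ (t ∉ W ∪ L → ∀ f, pr σ J f = f u0 + f t) := by
    by_cases h : ∃ u0, u0 ∉ W ∪ L
    · obtain ⟨u0, h0⟩ := h
      refine ⟨u0, fun t => ?_⟩
      by_cases ht : t ∈ W ∪ L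
      · exact ⟨0, by simp, fun _ => rfl, fun h => absurd ht h⟩
      · obtain ⟨J, j1, j2⟩ := (con u0 t h0 ht).chain
        exact ⟨J, j1, fun h => absurd (Or.inr h) ht, fun _ => j2⟩
    · exact ⟨1, fun t => ⟨0, by simp, fun _ => rfl, fun h' => absurd ⟨t, h'⟩ h⟩⟩
  obtain ⟨u0, hJ⟩ := hbase
  choose Jv j1 j2 j3 using hJ
  set J := ∑ e ∈ Z0, (Jv e.1 + Jv (σ e.2 * e.1)) with hJ
  have hJs : ∀ e, J e ≠ 0 → e.1 ∉ W ∪ L ∧ σ e.2 * e.1 ∉ W ∪ L := by
    intro e he
    rw [hJ, Finsupp.finset_sum_apply] at he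
    obtain ⟨x, -, hx⟩ := Finset.exists_ne_zero_of_sum_ne_zero he
    by_cases h : Jv x.1 e = 0
    · exact j1 _ e (by simpa [h] using hx)
    · exact j1 _ e h
  have hdis : Disjoint Z0 J.support := by
    rw [Finset.disjoint_left]
    intro e he he'
    have := hJs e (Finsupp.mem_support_iff.1 he')
    rcases (mEt e).1 (mem_filter.1 he).1 with h | h
    exacts [this.1 (Or.inr h), this.2 (Or.inr h)]
  have hpar : ∀ f : G → ZMod 2, (∀ g, g ∉ L → f g = 0) →
      ∑ e ∈ Z0, (f e.1 + f (σ e.2 * e.1)) = 0 := by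
    intro f hf
    have e1 : ∑ e ∈ Z0, (f e.1 + f (σ e.2 * e.1)) =
        ∑ e ∈ Et, (ψ e.1 e.2 : ZMod 2) * f e.1 + ∑ e ∈ Et, (ψ e.1 e.2 : ZMod 2) * f (σ e.2 * e.1) := by
      rw [hZ0, Finset.sum_filter, ← Finset.sum_add_distrib]
      refine Finset.sum_congr rfl fun e _ => ?_
      split_ifs with h
      · rw [(ZMod.intCast_eq_one_iff_odd).2 h]
        ring
      · rw [(ZMod.intCast_eq_zero_iff_even).2 (Int.not_odd_iff_even.1 h)]
        ring
    have e2 : ∑ e ∈ Et, (ψ e.1 e.2 : ZMod 2) * f e.1 =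
        ∑ g ∈ Lf, f g * ∑ i, (ψ g i : ZMod 2) := by
      rw [← Finset.sum_subset (s₁ := Lf ×ˢ univ) Finset.subset_union_left, Finset.sum_product]
      · refine Finset.sum_congr rfl fun g _ => ?_
        rw [Finset.mul_sum]
        exact Finset.sum_congr rfl fun i _ => mul_comm _ _
      · intro e _ he
        rw [hf e.1 (by simpa [hLf] using he), mul_zero]
    have e3 : ∑ e ∈ Et, (ψ e.1 e.2 : ZMod 2) * f (σ e.2 * e.1) =
        ∑ g ∈ Lf, f g * ∑ i, (ψ ((σ i)⁻¹ * g) i : ZMod 2) := by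
      rw [← Finset.sum_subset (s₁ := (Lf ×ˢ univ).image fun e => ((σ e.2)⁻¹ * e.1, e.2))
        Finset.subset_union_right, Finset.sum_image, Finset.sum_product]
      · refine Finset.sum_congr rfl fun g _ => ?_
        rw [Finset.mul_sum]
        exact Finset.sum_congr rfl fun i _ => by simp [mul_comm]
      · rintro ⟨a, i⟩ - ⟨b, j⟩ - h
        obtain ⟨h1, rfl⟩ := Prod.mk.inj h
        simpa using h1
      · intro e _ he
        rw [hf _ fun h => he (mem_image.2 ⟨(σ e.2 * e.1, e.2), by simpa [hLf] using h, by simp⟩),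
          mul_zero]
    rw [e1, e2, e3, ← Finset.sum_add_distrib]
    refine Finset.sum_eq_zero fun g hg => ?_
    have := (ZMod.intCast_eq_zero_iff_even).2 (ev g (by simpa [hLf] using hg))
    push_cast at this
    linear_combination f g * this + f g * two (∑ i, (ψ ((σ i)⁻¹ * g) i : ZMod 2))
  obtain ⟨c, c1, c2⟩ := euler _ (Z0 ∪ J.support) (fun e => e.1) (fun e => σ e.2 * e.1) rfl
    fun f => by
      have e1 : ∑ e ∈ J.support, (f e.1 + f (σ e.2 * e.1)) = pr σ J f := by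
        refine Finset.sum_congr rfl fun e he => ?_
        have : ∀ a : ZMod 2, a ≠ 0 → a = 1 := by decide
        rw [this _ (Finsupp.mem_support_iff.1 he)]
        exact (one_mul _).symm
      rw [Finset.sum_union hdis, e1, hJ, pr_sum, ← Finset.sum_add_distrib,
        ← hpar (fun g => if g ∈ L then f g + f u0 else 0) fun g hg => if_neg hg]
      refine Finset.sum_congr rfl fun e he => ?_
      have hv : ∀ a b, Adj σ a b → (a ∈ L ∨ b ∈ L) →
          f a + pr σ (Jv a) f = (if a ∈ L then f a + f u0 else 0) + f u0 := by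
        intro a b hab h
        split_ifs with ha
        · rw [j2 a ha]
          simp only [pr, Finsupp.sum_zero_index]
          linear_combination - two (f u0)
        · rw [j3 a (by
            rintro (h' | h')
            · exact ha (sat b (h.resolve_left ha) a h' hab.symm)
            · exact ha h')]
          linear_combination two (f a)
      have hm := (mEt e).1 (mem_filter.1 he).1
      have a1 := hv e.1 (σ e.2 * e.1) ⟨e.2, Or.inl rfl⟩ hm
      have a2 := hv (σ e.2 * e.1) e.1 ⟨e.2, Or.inr rfl⟩ hm.symm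
      rw [pr_add]
      linear_combination a1 + a2 + two (f u0)
  refine ⟨Z0 ∪ J.support, c, c1, c2, fun e he => ⟨fun h => ?_, fun h =>
    mem_union_left _ (mem_filter.2 ⟨(mEt e).2 he, h⟩)⟩, fun e he => ?_⟩
  · rcases mem_union.1 h with h | h
    · exact (mem_filter.1 h).2
    · have := hJs e (Finsupp.mem_support_iff.1 h)
      rcases he with he | he
      exacts [absurd (Or.inr he) this.1, absurd (Or.inr he) this.2]
  · rcases mem_union.1 he with h | h
    · exact Or.inl ((mEt e).1 (mem_filter.1 h).1)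
    · have := hJs e (Finsupp.mem_support_iff.1 h)
      exact Or.inr ⟨fun a => this.1 (Or.inl a), fun a => this.2 (Or.inl a)⟩

/-- One-endedness from a normal infinite cyclic subgroup of infinite index. -/
lemma oe_empty (hgen : ∀ u v : G, Conn σ Set.univ u v) (i0 : ι)
    (inj : Function.Injective fun n : ℤ => σ i0 ^ n)
    (nor : ∀ g, g⁻¹ * σ i0 * g = σ i0 ∨ g⁻¹ * σ i0 * g = (σ i0)⁻¹)
    (free : ∀ F : Set G, F.Finite → ∃ w, ∀ n : ℤ, σ i0 ^ n * w ∉ F) : OE σ (∅ : Set G) := by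
  intro F hF
  set a := σ i0 with ha
  have hfin : ∀ (u v : G), {n : ℤ | u * a ^ n * v ∈ F}.Finite := fun u v =>
    hF.preimage (f := fun n : ℤ => u * a ^ n * v) fun m _ n _ h =>
      inj (mul_left_cancel (mul_right_cancel h))
  have ray : ∀ (u : G) (ε : ℤ), (ε = 1 ∨ ε = -1) → ∀ N : ℕ, (∀ n : ℕ, a ^ (ε * n) * u ∉ F) →
      Conn σ (∅ ∪ F)ᶜ u (a ^ (ε * N) * u) := by
    intro u ε hε N h
    induction N with
    | zero =>
      simp only [Nat.cast_zero, mul_zero, zpow_zero, one_mul]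
      exact ReflTransGen.refl
    | succ N ih =>
      refine ih.trans (Conn.step (by simpa using h N) (by simpa using h (N + 1)) ⟨i0, ?_⟩)
      rcases hε with rfl | rfl
      · left
        rw [← ha, ← mul_assoc, ← zpow_one_add]
        congr 2
        push_cast
        ring
      · right
        rw [← ha, ← mul_assoc, ← zpow_one_add]
        congr 2
        push_cast
        ring
  have conj : ∀ (g : G), ∃ ε : ℤ, (ε = 1 ∨ ε = -1) ∧ ∀ n : ℤ, a ^ n * g = g * a ^ (ε * n) := by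
    intro g
    have e : ∀ n : ℤ, a ^ n * g = g * (g⁻¹ * a * g) ^ n := by
      intro n
      have := conj_zpow (a := g⁻¹) (b := a) (i := n)
      rw [inv_inv] at this
      rw [this]
      group
    rcases nor g with h | h
    · exact ⟨1, Or.inl rfl, fun n => by rw [e, h, one_mul]⟩
    · exact ⟨-1, Or.inr rfl, fun n => by rw [e, h]; group⟩
  obtain ⟨w, hw⟩ := free F hF
  have esc : ∀ u (ε : ℤ), (ε = 1 ∨ ε = -1) → (∀ n : ℕ, a ^ (ε * n) * u ∉ F) →
      Conn σ (∅ ∪ F)ᶜ u w := by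
    intro u ε hε h
    obtain ⟨Q, q1, -, q2⟩ := (hgen u w).finite
    obtain ⟨δ, hδ, hd⟩ := conj u
    obtain ⟨η, hη, he⟩ := conj w
    have hbad : {N : ℕ | ∃ g ∈ Q, g * a ^ (δ * (ε * N)) * 1 ∈ F}.Finite := by
      have : {n : ℤ | ∃ g ∈ Q, g * a ^ n * 1 ∈ F}.Finite :=
        (q1.biUnion fun g _ => hfin g 1).subset fun n ⟨g, h1, h2⟩ => Set.mem_biUnion h1 h2
      refine this.preimage (f := fun N : ℕ => δ * (ε * N)) fun m _ n _ h => ?_
      rcases hδ with rfl | rfl <;> rcases hε with rfl | rfl <;> simpa using h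
    obtain ⟨N, hN⟩ := hbad.exists_notMem
    have c1 := ray u ε hε N h
    have c2 := q2.mul (Q := (∅ ∪ F)ᶜ) (a ^ (δ * (ε * N))) fun g hg h' =>
      hN ⟨g, hg, by simpa using h'⟩
    have c3 := ray w (η * (δ * ε)) (by
      rcases hδ with rfl | rfl <;> rcases hε with rfl | rfl <;> rcases hη with rfl | rfl <;> simp)
      N fun n => hw _
    rw [he] at c3
    rw [hd] at c1
    have e : η * (η * (δ * ε) * N) = δ * (ε * N) := by
      rcases hη with rfl | rfl <;> ring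
    rw [e] at c3
    exact (c1.trans c2).trans c3.symm
  refine ⟨{u | (∃ n : ℕ, a ^ ((1 : ℤ) * n) * u ∈ F) ∧ ∃ n : ℕ, a ^ ((-1 : ℤ) * n) * u ∈ F}, ?_,
    fun u v hu hv => ?_⟩
  · refine (hF.biUnion fun f _ => (hfin 1 f).biUnion fun k _ =>
      (Set.finite_Icc k 0).image fun j : ℤ => a ^ j * f).subset ?_
    rintro u ⟨⟨n, hn⟩, m, hm⟩
    refine Set.mem_biUnion hn (Set.mem_biUnion (x := -(n : ℤ) - m) ?_ ⟨-n, ⟨by omega, by omega⟩, ?_⟩)
    · have : 1 * a ^ (-(n : ℤ) - m) * (a ^ ((1 : ℤ) * n) * u) = a ^ ((-1 : ℤ) * m) * u := by group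
      show 1 * a ^ (-(n : ℤ) - m) * (a ^ ((1 : ℤ) * n) * u) ∈ F
      rwa [this]
    · show a ^ (-(n : ℤ)) * (a ^ ((1 : ℤ) * n) * u) = u
      group
  · have out : ∀ u, u ∉ (∅ : Set G) ∪ {u | (∃ n : ℕ, a ^ ((1 : ℤ) * n) * u ∈ F) ∧
        ∃ n : ℕ, a ^ ((-1 : ℤ) * n) * u ∈ F} → Conn σ (∅ ∪ F)ᶜ u w := by
      intro u hu
      by_cases h : ∃ n : ℕ, a ^ ((1 : ℤ) * n) * u ∈ F
      · exact esc u (-1) (Or.inr rfl) fun n hn => hu (Or.inr ⟨h, n, hn⟩)
      · exact esc u 1 (Or.inl rfl) fun n hn => h ⟨n, hn⟩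
    exact (out u hu).trans (out v hv).symm

lemma sat_empty : Sat σ (∅ : Set G) := fun F hF =>
  ⟨F, hF, subset_rfl, Set.subset_union_left, fun _ _ _ h => h.elim⟩

end Pool.Agent.H.MP_bf94fe_gt
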